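import Pool.Agent.V7H85.BS.Spec

/-! Base lemmas: the sum over the projective line. -/

set_option autoImplicit false

namespace Pool.Agent.V7H85.BS

open Finset Matrix
open Pool.Agent.R478.BES

variable {F : Type} [Field F] [Fintype F] [DecidableEq F] [CharP F 2]

theorem exists_sq (x : F) : ∃ a, x = a ^ 2 := by
  obtain ⟨a, ha⟩ := (FiniteField.isSquare_of_char_two (ringChar.eq F 2) x)
  exact ⟨a, by rw [ha, sq]⟩

omit [Fintype F] [DecidableEq F] in
theorem sq_inj {u v : F} : u ^ 2 = v ^ 2 ↔ u = v := by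
  constructor
  · intro h
    have : (u + v) ^ 2 = 0 := by rw [CharTwo.add_sq, h, CharTwo.add_self_eq_zero]
    exact CharTwo.add_eq_zero.1 (pow_eq_zero_iff (two_ne_zero) |>.1 this)
  · intro h; rw [h]

/-- the number of solutions of `ε² + ε = τ`. -/
theorem AS (e : AddChar F ℂ) (hne : e ≠ 1) (hsq : ∀ x, e (x ^ 2) = e x) (τ : F) :
    (∑ ε : F, if ε ^ 2 + ε = τ then (1 : ℂ) else 0) = 1 + e τ := by
  have hQ : (Fintype.card F : ℂ) ≠ 0 := by exact_mod_cast Fintype.card_ne_zero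
  apply mul_left_cancel₀ hQ
  have h1 : (Fintype.card F : ℂ) * (∑ ε : F, if ε ^ 2 + ε = τ then (1 : ℂ) else 0) =
      ∑ ε : F, ∑ m : F, e ((ε ^ 2 + ε + τ) * m ^ 2) := by
    rw [Finset.mul_sum]
    refine Finset.sum_congr rfl fun ε _ => ?_
    have h2 : ∑ m : F, e ((ε ^ 2 + ε + τ) * m ^ 2) = ∑ s : F, e ((ε ^ 2 + ε + τ) * s) := by
      refine Fintype.sum_equiv (Equiv.ofBijective (fun m : F => m ^ 2)
        ⟨fun a b h => sq_inj.1 h, fun x => ?_⟩) _ _ fun m => rfl
      obtain ⟨a, ha⟩ := exists_sq x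
      exact ⟨a, ha.symm⟩
    rw [h2, sum_e e hne]
    have h3 : (ε ^ 2 + ε + τ = 0) ↔ (ε ^ 2 + ε = τ) := CharTwo.add_eq_zero
    simp only [h3]
    split_ifs <;> simp
  rw [h1, Finset.sum_comm]
  have h4 : ∀ m : F, ∑ ε : F, e ((ε ^ 2 + ε + τ) * m ^ 2) =
      e (τ * m ^ 2) * (if m = 0 ∨ m = 1 then (Fintype.card F : ℂ) else 0) := by
    intro m
    have h5 : ∀ ε : F, e ((ε ^ 2 + ε + τ) * m ^ 2) = e (τ * m ^ 2) * e ((m + m ^ 2) * ε) := by
      intro ε
      have h6 : (ε ^ 2 + ε + τ) * m ^ 2 = (ε * m) ^ 2 + (τ * m ^ 2 + ε * m ^ 2) := by ring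
      rw [h6, AddChar.map_add_eq_mul, hsq, AddChar.map_add_eq_mul, mul_left_comm,
        ← AddChar.map_add_eq_mul]
      congr 2; ring
    rw [Finset.sum_congr rfl fun ε _ => h5 ε, ← Finset.mul_sum, sum_e e hne]
    have h7 : (m + m ^ 2 = 0) ↔ (m = 0 ∨ m = 1) := by
      constructor
      · intro h
        have : m * (m + 1) = 0 := by rw [← h]; ring
        rcases mul_eq_zero.1 this with h | h
        · exact Or.inl h
        · exact Or.inr (CharTwo.add_eq_zero.1 h)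
      · rintro (h | h)
        · simp [h]
        · rw [h]; simpa using CharTwo.add_self_eq_zero (1 : F)
    simp only [h7]
  rw [Finset.sum_congr rfl fun m _ => h4 m]
  have h8 : ∀ m : F, e (τ * m ^ 2) * (if m = 0 ∨ m = 1 then (Fintype.card F : ℂ) else 0) =
      (if m = 0 then (Fintype.card F : ℂ) else 0) +
      (if m = 1 then (Fintype.card F : ℂ) * e τ else 0) := by
    intro m
    by_cases c0 : m = 0
    · subst c0; simp
    · by_cases c1 : m = 1
      · subst c1; simp [mul_comm]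
      · simp [c0, c1]
  rw [Finset.sum_congr rfl fun m _ => h8 m, Finset.sum_add_distrib, Finset.sum_ite_eq',
    Finset.sum_ite_eq']
  simp [mul_add]

/-- the number of roots on the projective line. -/
theorem nroot (e : AddChar F ℂ) (hne : e ≠ 1) (hsq : ∀ x, e (x ^ 2) = e x) (a b f : F) :
    (∑ δ : F, if a * δ ^ 2 + b * δ + f = 0 then (1 : ℂ) else 0) + (if a = 0 then 1 else 0) =
      1 + (if b ≠ 0 then e (a * f / b ^ 2) else 0) +
        (if a = 0 ∧ b = 0 ∧ f = 0 then (Fintype.card F : ℂ) else 0) := by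
  by_cases hb : b = 0
  · subst hb
    by_cases ha : a = 0
    · subst ha
      by_cases hf : f = 0
      · subst hf; simp; ring
      · simp [hf]
    · simp only [ha, false_and, if_false, ne_eq, not_true, add_zero]
      obtain ⟨g, hg⟩ := exists_sq (f / a)
      have h1 : ∀ δ : F, (a * δ ^ 2 + 0 * δ + f = 0) ↔ δ = g := by
        intro δ
        rw [zero_mul, add_zero, ← sq_inj (u := δ), ← hg, eq_div_iff ha, mul_comm a]
        exact CharTwo.add_eq_zero
      simp only [h1, Finset.sum_ite_eq', mem_univ, if_true]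
  · simp only [hb, false_and, and_false, if_false, ne_eq, not_false_eq_true, if_true, add_zero]
    by_cases ha : a = 0
    · subst ha
      have h1 : ∀ δ : F, ((0 : F) * δ ^ 2 + b * δ + f = 0) ↔ δ = f / b := by
        intro δ
        rw [zero_mul, zero_add, eq_div_iff hb, mul_comm δ]
        exact CharTwo.add_eq_zero
      simp only [h1, Finset.sum_ite_eq', mem_univ, if_true]
      rw [zero_mul, zero_div, AddChar.map_zero_eq_one]
    · simp only [ha, if_false, add_zero]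
      rw [← AS e hne hsq]
      symm
      have hba : b / a ≠ 0 := div_ne_zero hb ha
      refine Fintype.sum_equiv (Equiv.mulLeft₀ (b / a) hba) _ _ fun ε => ?_
      simp only [Equiv.mulLeft₀_apply]
      have h1 : (a * (b / a * ε) ^ 2 + b * (b / a * ε) + f = 0) ↔ (ε ^ 2 + ε = a * f / b ^ 2) := by
        have h2 : a * (b / a * ε) ^ 2 + b * (b / a * ε) + f = (b ^ 2 / a) * (ε ^ 2 + ε) + f := by
          field_simp
        rw [h2, CharTwo.add_eq_zero, eq_div_iff (pow_ne_zero 2 hb)]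
        constructor
        · intro h
          rw [← h]; field_simp
        · intro h
          have h3 : f = (ε ^ 2 + ε) * b ^ 2 / a := by rw [h]; field_simp
          rw [h3]; ring
      simp only [h1]

/-- the addition formula, homogeneous form. -/
theorem ADDh (e : AddChar F ℂ) (G : F → ℂ) (hsq : ∀ x, e (x ^ 2) = e x) (hG : GData e G)
    (l l' Y : F) :
    (if Y = 0 then 0 else G (l ^ 2 / Y) * G (l' ^ 2 / Y)) =
      (∑ c, if c ^ 2 * Y + l * l' * c + (l + l') ^ 2 = 0 then G c else 0) -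
        (if l = l' ∧ l ≠ 0 then e (Y / l ^ 2) else 0) := by
  by_cases hY : Y = 0
  · subst hY
    simp only [if_true, mul_zero, zero_add, zero_div, AddChar.map_zero_eq_one]
    by_cases h0 : l * l' = 0
    · have h1 : ¬ (l = l' ∧ l ≠ 0) := by
        rintro ⟨rfl, h⟩
        exact h (by simpa using h0)
      rw [if_neg h1, sub_zero, h0]
      simp only [zero_mul, zero_add]
      by_cases h2 : (l + l') ^ 2 = 0
      · simp only [h2, if_true, hG.g1]
      · simp [h2]
    · have hl : l ≠ 0 := left_ne_zero_of_mul h0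
      have hl' : l' ≠ 0 := right_ne_zero_of_mul h0
      have h1 : ∀ c : F, (l * l' * c + (l + l') ^ 2 = 0) ↔ c = (l + l') ^ 2 / (l * l') := by
        intro c
        rw [CharTwo.add_eq_zero, eq_div_iff h0, mul_comm c]
      simp only [h1, Finset.sum_ite_eq', mem_univ, if_true]
      by_cases h2 : l = l'
      · subst h2
        simp [hl, CharTwo.add_self_eq_zero, hG.g0]
      · have h3 : l + l' ≠ 0 := fun h => h2 (CharTwo.add_eq_zero.1 h)
        have h4 : (l + l') ^ 2 / (l * l') ≠ 0 := div_ne_zero (pow_ne_zero 2 h3) h0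
        have h5 := hG.g2 _ h4
        have h6 : ((l + l') ^ 2 / (l * l'))⁻¹ = (l / (l + l')) ^ 2 + l / (l + l') := by
          field_simp
          grind
        rw [h6, AddChar.map_add_eq_mul, hsq, e_self, mul_one] at h5
        have h7 : G ((l + l') ^ 2 / (l * l')) = 0 := by linear_combination h5 / 2
        simp [h7, h2]
  · obtain ⟨η, hη⟩ := exists_sq Y
    have hη0 : η ≠ 0 := by
      rintro rfl; apply hY; rw [hη]; ring
    rw [if_neg hY, hη]
    have h1 : l ^ 2 / η ^ 2 = (l / η) ^ 2 := by rw [div_pow]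
    have h2 : l' ^ 2 / η ^ 2 = (l' / η) ^ 2 := by rw [div_pow]
    rw [h1, h2, hG.g4, hG.g4, hG.g3]
    congr 1
    · refine Finset.sum_congr rfl fun c _ => ?_
      have h3 : (c ^ 2 + l / η * (l' / η) * c + (l / η + l' / η) ^ 2 = 0) ↔
          (c ^ 2 * η ^ 2 + l * l' * c + (l + l') ^ 2 = 0) := by
        have h4 : c ^ 2 * η ^ 2 + l * l' * c + (l + l') ^ 2 =
            η ^ 2 * (c ^ 2 + l / η * (l' / η) * c + (l / η + l' / η) ^ 2) := by
          field_simp
        rw [h4, mul_eq_zero]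
        simp [hη0]
      simp only [h3]
    · have h3 : (l / η = l' / η ∧ l / η ≠ 0) ↔ (l = l' ∧ l ≠ 0) := by
        rw [div_left_inj' hη0]
        simp [hη0]
      simp only [h3]
      split_ifs with h
      · rw [← hsq (l / η)⁻¹]
        congr 1
        have := h.2
        field_simp
      · rfl

/-- the sum over the projective line. -/
theorem Tgen (e : AddChar F ℂ) (G : F → ℂ) (hne : e ≠ 1) (hsq : ∀ x, e (x ^ 2) = e x)
    (hG : GData e G) (p1 p0 r1 r0 C : F) :
    (∑ δ : F, if δ ^ 2 + δ + C = 0 then 0 else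
      G ((p1 * δ + p0) ^ 2 / (δ ^ 2 + δ + C)) * G ((r1 * δ + r0) ^ 2 / (δ ^ 2 + δ + C))) +
        G (p1 ^ 2) * G (r1 ^ 2) =
      (∑ c : F, G c * (if c ^ 2 + (p1 * r0 + p0 * r1) * c ≠ 0 then
        e ((c ^ 2 + p1 * r1 * c + (p1 + r1) ^ 2) * (c ^ 2 * C + p0 * r0 * c + (p0 + r0) ^ 2) /
          (c ^ 2 + (p1 * r0 + p0 * r1) * c) ^ 2) else 0)) +
      (Fintype.card F : ℂ) * (∑ c : F, if c ^ 2 + p1 * r1 * c + (p1 + r1) ^ 2 = 0 ∧
        c ^ 2 + (p1 * r0 + p0 * r1) * c = 0 ∧ c ^ 2 * C + p0 * r0 * c + (p0 + r0) ^ 2 = 0 then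
          G c else 0) -
      ((∑ δ : F, if p1 * δ + p0 = r1 * δ + r0 ∧ p1 * δ + p0 ≠ 0 then
        e ((δ ^ 2 + δ + C) / (p1 * δ + p0) ^ 2) else 0) +
        (if p1 = r1 ∧ p1 ≠ 0 then e (p1 ^ 2)⁻¹ else 0)) := by
  have h1 : ∀ δ : F, (if δ ^ 2 + δ + C = 0 then 0 else
      G ((p1 * δ + p0) ^ 2 / (δ ^ 2 + δ + C)) * G ((r1 * δ + r0) ^ 2 / (δ ^ 2 + δ + C))) =
      (∑ c, G c * if (c ^ 2 + p1 * r1 * c + (p1 + r1) ^ 2) * δ ^ 2 +
        (c ^ 2 + (p1 * r0 + p0 * r1) * c) * δ + (c ^ 2 * C + p0 * r0 * c + (p0 + r0) ^ 2) = 0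
          then 1 else 0) -
        (if p1 * δ + p0 = r1 * δ + r0 ∧ p1 * δ + p0 ≠ 0 then
        e ((δ ^ 2 + δ + C) / (p1 * δ + p0) ^ 2) else 0) := by
    intro δ
    rw [ADDh e G hsq hG]
    congr 1
    refine Finset.sum_congr rfl fun c _ => ?_
    have h2 : c ^ 2 * (δ ^ 2 + δ + C) + (p1 * δ + p0) * (r1 * δ + r0) * c +
        (p1 * δ + p0 + (r1 * δ + r0)) ^ 2 =
        (c ^ 2 + p1 * r1 * c + (p1 + r1) ^ 2) * δ ^ 2 +
        (c ^ 2 + (p1 * r0 + p0 * r1) * c) * δ + (c ^ 2 * C + p0 * r0 * c + (p0 + r0) ^ 2) := by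
      grind
    rw [h2]
    split_ifs <;> simp
  have h3 : G (p1 ^ 2) * G (r1 ^ 2) =
      (∑ c, G c * if c ^ 2 + p1 * r1 * c + (p1 + r1) ^ 2 = 0 then 1 else 0) -
        (if p1 = r1 ∧ p1 ≠ 0 then e (p1 ^ 2)⁻¹ else 0) := by
    rw [hG.g4, hG.g4, hG.g3]
    congr 1
    · refine Finset.sum_congr rfl fun c _ => ?_
      split_ifs <;> simp
    · split_ifs
      · rw [← hsq p1⁻¹, inv_pow]
      · rfl
  rw [Finset.sum_congr rfl fun δ _ => h1 δ, h3, Finset.sum_sub_distrib, Finset.sum_comm]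
  have h4 : ∀ c : F, (∑ δ : F, G c * if (c ^ 2 + p1 * r1 * c + (p1 + r1) ^ 2) * δ ^ 2 +
        (c ^ 2 + (p1 * r0 + p0 * r1) * c) * δ + (c ^ 2 * C + p0 * r0 * c + (p0 + r0) ^ 2) = 0
          then 1 else 0) + (G c * if c ^ 2 + p1 * r1 * c + (p1 + r1) ^ 2 = 0 then 1 else 0) =
      G c + G c * (if c ^ 2 + (p1 * r0 + p0 * r1) * c ≠ 0 then
        e ((c ^ 2 + p1 * r1 * c + (p1 + r1) ^ 2) * (c ^ 2 * C + p0 * r0 * c + (p0 + r0) ^ 2) /
          (c ^ 2 + (p1 * r0 + p0 * r1) * c) ^ 2) else 0) +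
        (Fintype.card F : ℂ) * (if c ^ 2 + p1 * r1 * c + (p1 + r1) ^ 2 = 0 ∧
        c ^ 2 + (p1 * r0 + p0 * r1) * c = 0 ∧ c ^ 2 * C + p0 * r0 * c + (p0 + r0) ^ 2 = 0 then
          G c else 0) := by
    intro c
    rw [← Finset.mul_sum, ← mul_add, nroot e hne hsq]
    split_ifs <;> ring
  have h5 := Finset.sum_congr rfl fun c (_ : c ∈ (univ : Finset F)) => h4 c
  rw [Finset.sum_add_distrib, Finset.sum_add_distrib, Finset.sum_add_distrib, hG.g1,
    ← Finset.mul_sum (s := univ) (a := (Fintype.card F : ℂ))] at h5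
  linear_combination h5

end Pool.Agent.V7H85.BS
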