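import Pool.Agent.V7H85.BS.Mat
import Pool.Agent.V7H89.BS.TR
import Pool.Agent.V7H89.BS.ORT

/-! Independence of the automorphism. -/

set_option autoImplicit false

namespace Pool.Agent.V7H85.BS

open Finset Matrix Sum
open Pool.Agent.R478.BES

variable {F : Type} [Field F] [Fintype F] [DecidableEq F] [CharP F 2]

omit [CharP F 2] in
theorem kap_equiv (G : F → ℂ) (φ : F ≃+* F) (hφ : ∀ x, G (φ x) = G x) (x y z : F) :
    kap G (φ x) (φ y) (φ z) = kap G x y z := by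
  unfold kap
  congr 1
  symm
  refine Fintype.sum_equiv φ.toEquiv _ _ fun d => ?_
  have h1 : (φ d ^ 2 + φ d = 1 + (φ x)⁻¹ + (φ y)⁻¹ + (φ z)⁻¹) ↔
      (d ^ 2 + d = 1 + x⁻¹ + y⁻¹ + z⁻¹) := by
    have h2 : 1 + (φ x)⁻¹ + (φ y)⁻¹ + (φ z)⁻¹ = φ (1 + x⁻¹ + y⁻¹ + z⁻¹) := by
      simp only [map_add, map_one, map_inv₀]
    rw [h2, ← map_pow, ← map_add, φ.injective.eq_iff]
  have h3 : φ x * φ y * φ z * φ d ^ 2 = φ (x * y * z * d ^ 2) := by
    simp only [map_mul, map_pow]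
  show _ = if φ d ^ 2 + φ d = 1 + (φ x)⁻¹ + (φ y)⁻¹ + (φ z)⁻¹ then
    G (φ x * φ y * φ z * φ d ^ 2) else 0
  simp only [h1, h3, hφ]

theorem Kq_equiv (e : AddChar F ℂ) (G : F → ℂ) (s : ℂ) (φ : F ≃+* F) (he : ∀ x, e (φ x) = e x)
    (hφ : ∀ x, G (φ x) = G x) (z : Fˣ)
    (i j : Fˣ ⊕ Fin 3) : Kq e G s (uu φ z) (tau φ i) (tau φ j) = Kq e G s z i j := by
  have hinj : ∀ x y : Fˣ, uu φ x = uu φ y ↔ x = y := fun x y =>
    (Units.mapEquiv (φ : F ≃* F)).injective.eq_iff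
  rcases i with x | i
  · rcases j with t | j
    · show kap G (φ x) (φ t) (φ z) * e (φ t)⁻¹ = _
      rw [kap_equiv G φ hφ, ← map_inv₀, he]; rfl
    · fin_cases j
      · show e ((φ z)⁻¹ + (φ x)⁻¹) * G (φ x * φ z) = e ((z : F)⁻¹ + (x : F)⁻¹) * G (x * z)
        rw [← he ((z : F)⁻¹ + (x : F)⁻¹), ← hφ ((x : F) * z)]
        simp only [map_mul, map_add, map_inv₀]
      · show - G (φ x * φ z) = - G (x * z)
        rw [← map_mul, hφ]
      · show (if uu φ x = uu φ z then - s * e (φ z)⁻¹ else 0) =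
          if x = z then - s * e (z : F)⁻¹ else 0
        simp only [hinj]
        rw [← map_inv₀, he]
  · fin_cases i
    · rcases j with t | j
      · show - G (φ t * φ z) * e (φ t)⁻¹ = - G (t * z) * e (t : F)⁻¹
        rw [← map_mul, hφ, ← map_inv₀, he]
      · fin_cases j <;> rfl
    · rcases j with t | j
      · show G (φ t * φ z) * e (φ z)⁻¹ = G (t * z) * e (z : F)⁻¹
        rw [← map_mul, hφ, ← map_inv₀, he]
      · fin_cases j
        · show e (φ z)⁻¹ = e (z : F)⁻¹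
          rw [← map_inv₀, he]
        · rfl
        · rfl
    · rcases j with t | j
      · show (if uu φ t = uu φ z then s else 0) = if t = z then s else 0
        simp only [hinj]
      · fin_cases j <;> rfl

theorem Pm_Kq (e : AddChar F ℂ) (G : F → ℂ) (s : ℂ) (φ : F ≃+* F) (he : ∀ x, e (φ x) = e x)
    (hφ : ∀ x, G (φ x) = G x) (z : Fˣ) :
    Pm (tau φ) * Kq e G s z = Kq e G s (uu φ z) * Pm (tau φ) := by
  ext i j
  obtain ⟨i', rfl⟩ := (tau φ).surjective i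
  rw [Pm_mul, mul_Pm, Kq_equiv e G s φ he hφ]

/-- the action on the units different from one. -/
def pj (φ : F ≃+* F) (z : {z : Fˣ // (z : F) ≠ 1}) : {z : Fˣ // (z : F) ≠ 1} :=
  ⟨uu φ z.1, by
    intro h
    apply z.2
    rw [coe_uu] at h
    exact φ.injective (by rw [h, map_one])⟩

theorem main (e : AddChar F ℂ) (G : F → ℂ) (hne : e ≠ 1) (h1 : e 1 = -1)
    (hsq : ∀ x, e (x ^ 2) = e x) (hG : GData e G) (φ φ' : F ≃+* F)
    (he : ∀ x, e (φ x) = e x) (he' : ∀ x, e (φ' x) = e x)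
    (hφ : ∀ x, G (φ x) = G x) (hφ' : ∀ x, G (φ' x) = G x)
    (hpi : ∀ f : Fˣ → ℂ, f ∘ uu φ = f ↔ f ∘ uu φ' = f) :
    ∑ x : Fˣ, e (x : F)⁻¹ * G (x * φ x) = ∑ x : Fˣ, e (x : F)⁻¹ * G (x * φ' x) := by
  classical
  obtain ⟨s, hs⟩ : ∃ s : ℂ, s = ((Real.sqrt (Fintype.card F) : ℝ) : ℂ) := ⟨_, rfl⟩
  have hss : s * s = Fintype.card F := by
    rw [hs, ← Complex.ofReal_mul, Real.mul_self_sqrt (Nat.cast_nonneg _)]
    simp
  have hsr : (starRingEnd ℂ) s = s := by rw [hs, Complex.conj_ofReal]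
  have hs0 : s ≠ 0 := by
    rintro rfl
    have : (Fintype.card F : ℂ) ≠ 0 := by exact_mod_cast Fintype.card_ne_zero
    exact this (by rw [← hss, mul_zero])
  have he0 : ∀ x : F, e x ≠ 0 := by
    intro x hx
    have := e_self e x
    rw [hx] at this; simp at this
  have ORT := Pool.Agent.V7H89.BS.t_ORT F e G hne h1 hsq hG
  have hPv : ∀ ψ : F ≃+* F, Pm (tau ψ) *ᵥ (Pi.single (inr 2) 1 : Fˣ ⊕ Fin 3 → ℂ) =
      Pi.single (inr 2) 1 := by
    intro ψ
    rw [Matrix.mulVec_single_one]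
    funext i
    show (if i = tau ψ (inr 2) then (1 : ℂ) else 0) = _
    have : tau ψ (inr 2) = inr 2 := rfl
    rw [this, Pi.single_apply]
  have hfix : ∀ ψ : F ≃+* F, ∀ i : Fˣ ⊕ Fin 3,
      (∀ z : {z : Fˣ // (z : F) ≠ 1}, i ≠ inl z.1) → tau ψ i = i := by
    intro ψ i hi
    rcases i with x | i
    · have hx : x = 1 := by
        by_contra h
        exact hi ⟨x, fun h2 => h (Units.val_eq_one.1 h2)⟩ rfl
      rw [hx]
      show inl (uu ψ 1) = inl 1
      congr 1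
      ext
      rw [coe_uu]; simp
    · rfl
  have hpi' : ∀ g : {z : Fˣ // (z : F) ≠ 1} → ℂ, g ∘ pj φ = g ↔ g ∘ pj φ' = g := by
    intro g
    have key : ∀ ψ : F ≃+* F, g ∘ pj ψ = g ↔
        (fun x : Fˣ => if h : (x : F) ≠ 1 then g ⟨x, h⟩ else 0) ∘ uu ψ =
          (fun x : Fˣ => if h : (x : F) ≠ 1 then g ⟨x, h⟩ else 0) := by
      intro ψ
      constructor
      · intro h
        funext x
        simp only [Function.comp_apply]
        by_cases hx : (x : F) ≠ 1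
        · have hx2 : ((uu ψ x : Fˣ) : F) ≠ 1 := (pj ψ ⟨x, hx⟩).2
          rw [dif_pos hx2, dif_pos hx]
          exact congrFun h ⟨x, hx⟩
        · have hx2 : ¬ ((uu ψ x : Fˣ) : F) ≠ 1 := by
            push Not at hx ⊢
            rw [coe_uu, hx, map_one]
          rw [dif_neg hx2, dif_neg hx]
      · intro h
        funext z
        have h2 := congrFun h z.1
        simp only [Function.comp_apply] at h2 ⊢
        have hx2 : ((uu ψ z.1 : Fˣ) : F) ≠ 1 := (pj ψ z).2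
        rw [dif_pos hx2, dif_pos z.2] at h2
        exact h2
    rw [key, key, hpi]
  have hT := Pool.Agent.V7H89.BS.t_TR (ι := Fˣ ⊕ Fin 3) (J := {z : Fˣ // (z : F) ≠ 1})
    (fun z => Kq e G s z.1) (fun z => if e (z.1 : F)⁻¹ = 1 then Complex.I else 1) ?_ ?_
    (fun z w => Kq_comm e G hne h1 hsq hG s hss hsr ORT z.1 w.1 z.2 w.2)
    (Pi.single (inr 2) 1) (Pi.single (inr 1) 1) (fun z => inl z.1) (fun z => - s * e (z.1 : F)⁻¹)
    ?_ ?_ ?_ (tau φ) (tau φ') (pj φ) (pj φ') (fun z => rfl) (fun z => rfl)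
    (hfix φ) (hfix φ') (fun z => Pm_Kq e G s φ he hφ z.1) (fun z => Pm_Kq e G s φ' he' hφ' z.1)
    (hPv φ) (hPv φ') hpi'
  · have hval : ∀ (ψ : F ≃+* F), (∀ x, e (ψ x) = e x) → ∀ z : {z : Fˣ // (z : F) ≠ 1},
        (Kq e G s (pj ψ z).1 *ᵥ (Pi.single (inr 1) 1 : Fˣ ⊕ Fin 3 → ℂ)) (inl z.1) /
          (- s * e ((pj ψ z).1 : F)⁻¹) = s⁻¹ * (e (z.1 : F)⁻¹ * G (z.1 * ψ z.1)) := by
      intro ψ hψ z
      rw [Matrix.mulVec_single_one]
      show - G (z.1 * (uu ψ z.1 : Fˣ)) / (- s * e ((uu ψ z.1 : Fˣ) : F)⁻¹) = _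
      rw [coe_uu, ← map_inv₀, hψ]
      have h2 := e_self e (z.1 : F)⁻¹
      have h3 := he0 (z.1 : F)⁻¹
      rw [div_eq_iff (mul_ne_zero (neg_ne_zero.2 hs0) h3)]
      have h4 : s⁻¹ * s = 1 := inv_mul_cancel₀ hs0
      linear_combination (G (z.1 * ψ z.1)) * h2 + (e (z.1 : F)⁻¹ * e (z.1 : F)⁻¹) * (G (z.1 * ψ z.1)) * h4
    simp only [hval φ he, hval φ' he'] at hT
    rw [← Finset.mul_sum, ← Finset.mul_sum] at hT
    have hT2 := mul_left_cancel₀ (inv_ne_zero hs0) hT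
    have hsplit : ∀ ψ : F ≃+* F, ∑ x : Fˣ, e (x : F)⁻¹ * G (x * ψ x) =
        (∑ z : {z : Fˣ // (z : F) ≠ 1}, e (z.1 : F)⁻¹ * G (z.1 * ψ z.1)) + e 1 * G 1 := by
      intro ψ
      rw [← Finset.sum_filter_add_sum_filter_not univ (fun x : Fˣ => (x : F) ≠ 1)]
      congr 1
      · rw [← Finset.sum_subtype (univ.filter fun x : Fˣ => (x : F) ≠ 1) (by simp)
          (fun x : Fˣ => e (x : F)⁻¹ * G (x * ψ x))]
      · have : (univ.filter fun x : Fˣ => ¬ (x : F) ≠ 1) = {1} := by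
          ext x
          simp [Units.val_eq_one]
        rw [this, Finset.sum_singleton]
        simp
    rw [hsplit φ, hsplit φ', hT2]
  · intro z
    split_ifs
    · exact Complex.I_ne_zero
    · exact one_ne_zero
  · intro z
    rw [Matrix.IsHermitian, Matrix.conjTranspose_smul, Kq_conjTranspose e G s hsr h1 hsq hG.g5,
      smul_smul]
    congr 1
    rcases e_pm e (z.1 : F)⁻¹ with h | h
    · rw [h]
      simp only [if_true]
      show (starRingEnd ℂ) Complex.I * -1 = _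
      rw [Complex.conj_I]; ring
    · have h1 : ¬ ((-1 : ℂ) = 1) := by norm_num
      rw [h]
      simp [h1]
  · intro z w h
    exact Subtype.ext (Sum.inl_injective h)
  · intro z
    exact mul_ne_zero (neg_ne_zero.2 hs0) (he0 _)
  · intro z
    rw [Matrix.mulVec_single_one]
    funext i
    rcases i with x | i
    · show (if x = z.1 then - s * e (z.1 : F)⁻¹ else 0) = _
      by_cases h : x = z.1
      · subst h; simp
      · simp [h]
    · fin_cases i
      · show (0 : ℂ) = _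
        simp
      · show (0 : ℂ) = _
        simp
      · show (0 : ℂ) = _
        simp

end Pool.Agent.V7H85.BS
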