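import Pool.Agent.V7H85.BS.Base

/-! The three point identity. -/

set_option autoImplicit false

namespace Pool.Agent.V7H85.BS

open Finset Matrix
open Pool.Agent.R478.BES

variable {F : Type} [Field F] [Fintype F] [DecidableEq F] [CharP F 2]

omit [CharP F 2] in
theorem kap_sum (G : F → ℂ) (x z : F) (h : F → ℂ) (hchar : ∀ a b : F, a = b ↔ a + b = 0) :
    ∑ y : Fˣ, kap G x y z * h y = - ∑ δ : F, if δ ^ 2 + δ + (1 + x⁻¹ + z⁻¹) = 0 then 0 else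
      G (x * z * δ ^ 2 / (δ ^ 2 + δ + (1 + x⁻¹ + z⁻¹))) *
        h (δ ^ 2 + δ + (1 + x⁻¹ + z⁻¹))⁻¹ := by
  have h1 : ∀ y : Fˣ, kap G x y z * h y = - ∑ δ : F, if δ ^ 2 + δ = 1 + x⁻¹ + (y : F)⁻¹ + z⁻¹ then
      G (x * y * z * δ ^ 2) * h y else 0 := by
    intro y
    unfold kap
    rw [neg_mul, Finset.sum_mul]
    congr 1
    refine Finset.sum_congr rfl fun δ _ => ?_
    split_ifs <;> simp
  rw [Finset.sum_congr rfl fun y _ => h1 y, Finset.sum_neg_distrib, Finset.sum_comm]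
  congr 1
  refine Finset.sum_congr rfl fun δ _ => ?_
  rw [sum_units (fun y : F => if δ ^ 2 + δ = 1 + x⁻¹ + (y : F)⁻¹ + z⁻¹ then
      G (x * y * z * δ ^ 2) * h y else 0)]
  have hY : ∀ y : F, (δ ^ 2 + δ = 1 + x⁻¹ + (y : F)⁻¹ + z⁻¹) ↔
      y⁻¹ = δ ^ 2 + δ + (1 + x⁻¹ + z⁻¹) := by
    intro y
    rw [hchar (δ ^ 2 + δ), hchar y⁻¹]
    have : δ ^ 2 + δ + (1 + x⁻¹ + y⁻¹ + z⁻¹) = y⁻¹ + (δ ^ 2 + δ + (1 + x⁻¹ + z⁻¹)) := by ring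
    rw [this]
  generalize δ ^ 2 + δ + (1 + x⁻¹ + z⁻¹) = Y at hY ⊢
  simp only [hY]
  rw [Finset.sum_eq_single Y⁻¹]
  · by_cases h0 : Y = 0
    · simp [h0]
    · rw [if_neg (inv_ne_zero h0), if_pos (inv_inv Y), if_neg h0]
      congr 2
      rw [div_eq_mul_inv]; ring
  · intro y _ hy
    by_cases h0 : y = 0
    · simp [h0]
    · rw [if_neg h0, if_neg]
      intro h2
      apply hy
      rw [← h2, inv_inv]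
  · simp

theorem e_quad (e : AddChar F ℂ) (hsq : ∀ x, e (x ^ 2) = e x) (δ C : F) :
    e (δ ^ 2 + δ + C) = e C := by
  rw [AddChar.map_add_eq_mul, AddChar.map_add_eq_mul, hsq, e_self, one_mul]

omit [Fintype F] [DecidableEq F] [CharP F 2] in
theorem e_one_add (e : AddChar F ℂ) (h1 : e 1 = -1) (A B : F) :
    e (1 + A + B) = - e (A + B) := by
  rw [add_assoc, AddChar.map_add_eq_mul, h1]; ring

theorem K3eval (e : AddChar F ℂ) (G : F → ℂ) (hne : e ≠ 1) (h1 : e 1 = -1)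
    (hsq : ∀ x, e (x ^ 2) = e x) (hG : GData e G) (a b d : F) (ha : a ≠ 0) (hb : b ≠ 0)
    (hd : d ≠ 0) (hd1 : d ≠ 1) :
    B3 e G (a ^ 2) (b ^ 2) (d ^ 2) =
      (∑ c : F, G c * (if c ^ 2 + a * b * d * c ≠ 0 then
        e ((a ^ 2)⁻¹ + (b ^ 2)⁻¹ + (c ^ 2 + a ^ 2 * b ^ 2) *
          (c ^ 2 * (1 + (a ^ 2)⁻¹ + (b ^ 2)⁻¹) + d ^ 2) / (c ^ 2 + a * b * d * c) ^ 2) else 0)) -
        e ((a ^ 2)⁻¹ + (b ^ 2)⁻¹ + (d ^ 2)⁻¹ + (a ^ 2)⁻¹ * (b ^ 2)⁻¹ + (a ^ 2)⁻¹ * (d ^ 2)⁻¹ +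
          (b ^ 2)⁻¹ * (d ^ 2)⁻¹ + (a ^ 2)⁻¹ * (b ^ 2)⁻¹ * (d ^ 2)⁻¹) := by
  have hchar : ∀ a b : F, a = b ↔ a + b = 0 := fun a b => CharTwo.add_eq_zero.symm
  unfold B3
  have q1 := kap_sum G (a ^ 2) (b ^ 2) (fun y => e y⁻¹ * G (y * d ^ 2)) hchar
  simp only [inv_inv, ← mul_assoc] at q1
  rw [q1]
  obtain ⟨C, hC⟩ : ∃ C, C = 1 + (a ^ 2)⁻¹ + (b ^ 2)⁻¹ := ⟨_, rfl⟩
  have heC : e C = - e ((a ^ 2)⁻¹ + (b ^ 2)⁻¹) := by rw [hC, e_one_add e h1]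
  rw [← hC]
  have q2 : (∑ δ : F, if δ ^ 2 + δ + C = 0 then 0 else
      G (a ^ 2 * b ^ 2 * δ ^ 2 / (δ ^ 2 + δ + C)) * e (δ ^ 2 + δ + C) *
        G ((δ ^ 2 + δ + C)⁻¹ * d ^ 2)) = e C * ∑ δ : F, (if δ ^ 2 + δ + C = 0 then 0 else
      G ((a * b * δ + 0) ^ 2 / (δ ^ 2 + δ + C)) * G ((0 * δ + d) ^ 2 / (δ ^ 2 + δ + C))) := by
    rw [Finset.mul_sum]
    refine Finset.sum_congr rfl fun δ _ => ?_
    split_ifs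
    · simp
    · rw [e_quad e hsq]
      have e1 : (a * b * δ + 0) ^ 2 = a ^ 2 * b ^ 2 * δ ^ 2 := by ring
      have e2 : (0 * δ + d) ^ 2 / (δ ^ 2 + δ + C) = (δ ^ 2 + δ + C)⁻¹ * d ^ 2 := by
        rw [zero_mul, zero_add, div_eq_mul_inv, mul_comm]
      rw [e1, e2]; ring
  have q3 := Tgen e G hne hsq hG (a * b) 0 0 d C
  simp only [mul_zero, zero_mul, add_zero, zero_add] at q3 q2
  have hab : a * b ≠ 0 := mul_ne_zero ha hb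
  have q4 : (∑ c : F, if c ^ 2 + (a * b) ^ 2 = 0 ∧ c ^ 2 + a * b * d * c = 0 ∧
      c ^ 2 * C + d ^ 2 = 0 then G c else 0) = 0 := by
    apply Finset.sum_eq_zero
    intro c _
    rw [if_neg]
    rintro ⟨k1, k2, -⟩
    have k3 : c = a * b := sq_inj.1 (CharTwo.add_eq_zero.1 k1)
    rw [k3] at k2
    have k4 : (a * b) ^ 2 * (1 + d) = 0 := by rw [← k2]; ring
    rcases mul_eq_zero.1 k4 with h | h
    · exact (pow_ne_zero 2 hab) h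
    · exact hd1 (CharTwo.add_eq_zero.1 h).symm
  have q5 : (∑ δ : F, if a * b * δ = d ∧ a * b * δ ≠ 0 then
      e ((δ ^ 2 + δ + C) / (a * b * δ) ^ 2) else 0) =
      e (((d / (a * b)) ^ 2 + d / (a * b) + C) / d ^ 2) := by
    have k1 : ∀ δ : F, (a * b * δ = d ∧ a * b * δ ≠ 0) ↔ δ = d / (a * b) := by
      intro δ
      rw [eq_div_iff hab, mul_comm δ]
      constructor
      · exact fun h => h.1
      · intro h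
        exact ⟨h, by rw [h]; exact hd⟩
    simp only [k1, Finset.sum_ite_eq', mem_univ, if_true]
    rw [mul_div_cancel₀ _ hab]
  have q6 : ¬ (a * b = 0 ∧ a * b ≠ 0) := fun h => h.2 h.1
  rw [q4, q5, if_neg q6] at q3
  have q7 : G ((a * b) ^ 2) * G (0 ^ 2) = G (a ^ 2 * b ^ 2) := by
    rw [zero_pow (two_ne_zero), hG.g0, mul_one, mul_pow]
  rw [q7] at q3
  rw [q2, heC]
  have q8 : e (((d / (a * b)) ^ 2 + d / (a * b) + C) / d ^ 2) =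
      e ((d ^ 2)⁻¹ + (a ^ 2)⁻¹ * (b ^ 2)⁻¹ + (a ^ 2)⁻¹ * (d ^ 2)⁻¹ +
          (b ^ 2)⁻¹ * (d ^ 2)⁻¹ + (a ^ 2)⁻¹ * (b ^ 2)⁻¹ * (d ^ 2)⁻¹) := by
    have k1 : ((d / (a * b)) ^ 2 + d / (a * b) + C) / d ^ 2 = (a * b * d)⁻¹ +
      ((d ^ 2)⁻¹ + (a ^ 2)⁻¹ * (b ^ 2)⁻¹ + (a ^ 2)⁻¹ * (d ^ 2)⁻¹ + (b ^ 2)⁻¹ * (d ^ 2)⁻¹) := by
      rw [hC]; field_simp; ring
    rw [k1, AddChar.map_add_eq_mul, ← hsq (a * b * d)⁻¹, ← AddChar.map_add_eq_mul]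
    congr 1
    field_simp; ring
  rw [q8] at q3
  have q9 : ∀ c : F, G c * (if c ^ 2 + a * b * d * c ≠ 0 then
        e ((a ^ 2)⁻¹ + (b ^ 2)⁻¹ + (c ^ 2 + a ^ 2 * b ^ 2) *
          (c ^ 2 * C + d ^ 2) / (c ^ 2 + a * b * d * c) ^ 2) else 0) =
      e ((a ^ 2)⁻¹ + (b ^ 2)⁻¹) * (G c * (if c ^ 2 + a * b * d * c ≠ 0 then
        e ((c ^ 2 + (a * b) ^ 2) * (c ^ 2 * C + d ^ 2) / (c ^ 2 + a * b * d * c) ^ 2) else 0)) := by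
    intro c
    split_ifs
    · rw [AddChar.map_add_eq_mul e ((a ^ 2)⁻¹ + (b ^ 2)⁻¹), mul_pow]; ring
    · simp
  rw [Finset.sum_congr rfl fun c _ => q9 c, ← Finset.mul_sum]
  have q10 : e ((a ^ 2)⁻¹ + (b ^ 2)⁻¹ + (d ^ 2)⁻¹ + (a ^ 2)⁻¹ * (b ^ 2)⁻¹ + (a ^ 2)⁻¹ * (d ^ 2)⁻¹ +
          (b ^ 2)⁻¹ * (d ^ 2)⁻¹ + (a ^ 2)⁻¹ * (b ^ 2)⁻¹ * (d ^ 2)⁻¹) =
      e ((a ^ 2)⁻¹ + (b ^ 2)⁻¹) * e ((d ^ 2)⁻¹ + (a ^ 2)⁻¹ * (b ^ 2)⁻¹ + (a ^ 2)⁻¹ * (d ^ 2)⁻¹ +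
          (b ^ 2)⁻¹ * (d ^ 2)⁻¹ + (a ^ 2)⁻¹ * (b ^ 2)⁻¹ * (d ^ 2)⁻¹) := by
    rw [← AddChar.map_add_eq_mul]; congr 1; ring
  rw [q10]
  linear_combination (e ((a ^ 2)⁻¹ + (b ^ 2)⁻¹)) * q3

omit [Fintype F] [DecidableEq F] in
theorem K3alg (a b d c X Z W : F) (hx : a ^ 2 * X = 1) (hz : b ^ 2 * Z = 1) (hw : d ^ 2 * W = 1) :
    (c ^ 2 + a ^ 2 * b ^ 2) * (c ^ 2 * (1 + X + Z) + d ^ 2) +
      (c ^ 2 + a ^ 2 * d ^ 2) * (c ^ 2 * (1 + X + W) + b ^ 2) =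
      (c ^ 2 + a * b * d * c) ^ 2 * (Z + W) := by
  grind

omit [Fintype F] [DecidableEq F] in
theorem K3alg2 (a b d c : F) (ha : a ≠ 0) (hb : b ≠ 0) (hd : d ≠ 0)
    (h : c ^ 2 + a * b * d * c ≠ 0) :
    (a ^ 2)⁻¹ + (b ^ 2)⁻¹ + (c ^ 2 + a ^ 2 * b ^ 2) *
          (c ^ 2 * (1 + (a ^ 2)⁻¹ + (b ^ 2)⁻¹) + d ^ 2) / (c ^ 2 + a * b * d * c) ^ 2 =
    (a ^ 2)⁻¹ + (d ^ 2)⁻¹ + (c ^ 2 + a ^ 2 * d ^ 2) *
          (c ^ 2 * (1 + (a ^ 2)⁻¹ + (d ^ 2)⁻¹) + b ^ 2) / (c ^ 2 + a * b * d * c) ^ 2 := by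
  have k := K3alg a b d c (a ^ 2)⁻¹ (b ^ 2)⁻¹ (d ^ 2)⁻¹ (mul_inv_cancel₀ (pow_ne_zero 2 ha))
    (mul_inv_cancel₀ (pow_ne_zero 2 hb)) (mul_inv_cancel₀ (pow_ne_zero 2 hd))
  generalize (a ^ 2)⁻¹ = X at k ⊢
  generalize (b ^ 2)⁻¹ = Z at k ⊢
  generalize (d ^ 2)⁻¹ = W at k ⊢
  have h2 : (c ^ 2 + a * b * d * c) ^ 2 ≠ 0 := pow_ne_zero 2 h
  generalize (c ^ 2 + a * b * d * c) ^ 2 = B at k h2 ⊢
  generalize (c ^ 2 + a ^ 2 * b ^ 2) * (c ^ 2 * (1 + X + Z) + d ^ 2) = P at k ⊢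
  generalize (c ^ 2 + a ^ 2 * d ^ 2) * (c ^ 2 * (1 + X + W) + b ^ 2) = P' at k ⊢
  have h3 : P = P' + B * (Z + W) := by
    rw [← k]
    have : P' + P' = 0 := CharTwo.add_self_eq_zero _
    linear_combination (-1 : F) * this
  rw [h3, add_div, mul_div_cancel_left₀ _ h2]
  have : Z + Z = 0 := CharTwo.add_self_eq_zero _
  linear_combination this

theorem t_K3 : S_K3 := by
  intro F _ _ _ _ e G hne h1 hsq hG x z w hx hz hz1 hw hw1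
  obtain ⟨a, rfl⟩ := exists_sq x
  obtain ⟨b, rfl⟩ := exists_sq z
  obtain ⟨d, rfl⟩ := exists_sq w
  have ha : a ≠ 0 := by rintro rfl; simp at hx
  have hb : b ≠ 0 := by rintro rfl; simp at hz
  have hd : d ≠ 0 := by rintro rfl; simp at hw
  have hb1 : b ≠ 1 := by rintro rfl; simp at hz1
  have hd1 : d ≠ 1 := by rintro rfl; simp at hw1
  rw [K3eval e G hne h1 hsq hG a b d ha hb hd hd1, K3eval e G hne h1 hsq hG a d b ha hd hb hb1]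
  congr 1
  · refine Finset.sum_congr rfl fun c _ => ?_
    have k1 : a * d * b = a * b * d := by ring
    rw [k1]
    by_cases h : c ^ 2 + a * b * d * c ≠ 0
    · rw [if_pos h, if_pos h]
      congr 2
      exact K3alg2 a b d c ha hb hd h
    · rw [if_neg h, if_neg h]
  · congr 1; ring

end Pool.Agent.V7H85.BS
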