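import Pool.Agent.V7H85.BS.K3

/-! The four point identity. -/

set_option autoImplicit false

namespace Pool.Agent.V7H85.BS

open Finset Matrix
open Pool.Agent.R478.BES

variable {F : Type} [Field F] [Fintype F] [DecidableEq F] [CharP F 2]

/-- the generic part of the sum for given `j`. -/
noncomputable def S4 (e : AddChar F ℂ) (G : F → ℂ) (m r C j : F) : ℂ :=
  ∑ c : F, G c * (if c ^ 2 + m * r * j * c ≠ 0 then
        e ((c ^ 2 + m * r * c + (m + r) ^ 2) * (c ^ 2 * C + (r * j) ^ 2) /
          (c ^ 2 + m * r * j * c) ^ 2) else 0)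

/-- the correction for given `j`. -/
noncomputable def C4 (e : AddChar F ℂ) (m r C j : F) : ℂ :=
  if j = 0 then 0 else e ((m ^ 2)⁻¹ + ((m + r) / (m ^ 2 * r * j)) ^ 2 +
    C * ((m + r) / (m * r * j)) ^ 2)

/-- evaluation of the sum over `δ`. -/
theorem T4 (e : AddChar F ℂ) (G : F → ℂ) (hne : e ≠ 1) (hsq : ∀ x, e (x ^ 2) = e x)
    (hG : GData e G) (m r C j : F) (hm : m ≠ 0) (hr : r ≠ 0)
    (hex : ¬ (m ^ 2 * C = 1 ∧ m ^ 2 * r ^ 2 * (j ^ 2 + j) = m ^ 2 + r ^ 2))
    (hex0 : j = 0 → m = r → m ^ 2 * C ≠ 1) :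
    (∑ δ : F, if δ ^ 2 + δ + C = 0 then 0 else
      G ((m * δ) ^ 2 / (δ ^ 2 + δ + C)) * G ((r * (δ + j)) ^ 2 / (δ ^ 2 + δ + C))) +
        G (m ^ 2) * G (r ^ 2) =
      S4 e G m r C j + (if j = 0 ∧ m = r then (Fintype.card F : ℂ) else 0) - C4 e m r C j := by
  have q3 := Tgen e G hne hsq hG m 0 r (r * j) C
  simp only [mul_zero, zero_mul, add_zero, zero_add] at q3
  have e1 : ∀ δ : F, r * δ + r * j = r * (δ + j) := fun δ => by ring
  have e2 : m * (r * j) = m * r * j := by ring
  simp only [e1, e2] at q3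
  rw [q3]
  have q4 : (∑ c : F, if c ^ 2 + m * r * c + (m + r) ^ 2 = 0 ∧ c ^ 2 + m * r * j * c = 0 ∧
      c ^ 2 * C + (r * j) ^ 2 = 0 then G c else 0) = if j = 0 ∧ m = r then 1 else 0 := by
    rw [Finset.sum_eq_single 0]
    · have k1 : ((0 : F) ^ 2 + m * r * 0 + (m + r) ^ 2 = 0 ∧ (0 : F) ^ 2 + m * r * j * 0 = 0 ∧
        (0 : F) ^ 2 * C + (r * j) ^ 2 = 0) ↔ (j = 0 ∧ m = r) := by
        constructor
        · rintro ⟨h1, -, h3⟩
          have h4 : (m + r) ^ 2 = 0 := by rw [← h1]; ring
          have h5 : (r * j) ^ 2 = 0 := by rw [← h3]; ring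
          refine ⟨?_, CharTwo.add_eq_zero.1 (pow_eq_zero_iff (two_ne_zero) |>.1 h4)⟩
          exact (mul_eq_zero.1 (pow_eq_zero_iff (two_ne_zero) |>.1 h5)).resolve_left hr
        · rintro ⟨rfl, rfl⟩
          simp [CharTwo.add_self_eq_zero]
      simp only [k1, hG.g0]
    · intro c _ hc
      rw [if_neg]
      rintro ⟨h1, h2, h3⟩
      have h4 : c = m * r * j := by
        have : c * (c + m * r * j) = 0 := by rw [← h2]; ring
        exact CharTwo.add_eq_zero.1 ((mul_eq_zero.1 this).resolve_left hc)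
      have hj : j ≠ 0 := by rintro rfl; apply hc; rw [h4]; ring
      apply hex
      constructor
      · have h5 : (r * j) ^ 2 * (m ^ 2 * C + 1) = 0 := by
          rw [← h3, h4]; ring
        have h6 : m ^ 2 * C + 1 = 0 := (mul_eq_zero.1 h5).resolve_left
          (pow_ne_zero 2 (mul_ne_zero hr hj))
        exact CharTwo.add_eq_zero.1 h6
      · rw [h4] at h1
        rw [← CharTwo.add_eq_zero, ← h1]
        grind
    · simp
  rw [q4]
  have q5 : (∑ δ : F, if m * δ = r * (δ + j) ∧ m * δ ≠ 0 then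
      e ((δ ^ 2 + δ + C) / (m * δ) ^ 2) else 0) + (if m = r ∧ m ≠ 0 then e (m ^ 2)⁻¹ else 0) =
      C4 e m r C j := by
    unfold C4
    by_cases hj : j = 0
    · subst hj
      simp only [add_zero, if_true]
      by_cases hmr : m = r
      · subst hmr
        rw [if_pos ⟨rfl, hm⟩]
        obtain ⟨κ, hκ⟩ := exists_sq C
        have k2 : ∀ δ : F, (if m * δ = m * δ ∧ m * δ ≠ 0 then
            e ((δ ^ 2 + δ + C) / (m * δ) ^ 2) else 0) =
            e (m ^ 2)⁻¹ * (if δ = 0 then 0 else e (((m ^ 2)⁻¹ + κ / m) * δ⁻¹)) := by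
          intro δ
          by_cases h : δ = 0
          · simp [h]
          · rw [if_pos ⟨rfl, mul_ne_zero hm h⟩, if_neg h, ← AddChar.map_add_eq_mul]
            have k3 : (δ ^ 2 + δ + C) / (m * δ) ^ 2 = (κ / (m * δ)) ^ 2 +
                ((m ^ 2)⁻¹ + (m ^ 2)⁻¹ * δ⁻¹) := by
              rw [hκ]; field_simp; ring
            rw [k3, AddChar.map_add_eq_mul, hsq, ← AddChar.map_add_eq_mul]
            congr 1
            field_simp; ring
        rw [Finset.sum_congr rfl fun δ _ => k2 δ, ← Finset.mul_sum]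
        have k4 : (∑ δ : F, if δ = 0 then 0 else e (((m ^ 2)⁻¹ + κ / m) * δ⁻¹)) =
            ∑ y : Fˣ, e (((m ^ 2)⁻¹ + κ / m) * y) := by
          rw [← sum_units (fun δ : F => e (((m ^ 2)⁻¹ + κ / m) * δ⁻¹))]
          refine Fintype.sum_equiv (Equiv.inv Fˣ) _ _ fun y => ?_
          simp
        rw [k4, sum_units_e e hne, if_neg]
        · ring
        · intro h
          apply hex0 rfl rfl
          have k5 : κ / m = (m ^ 2)⁻¹ := (CharTwo.add_eq_zero.1 h).symm
          have k6 : κ * m = 1 := by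
            field_simp at k5
            linear_combination k5
          rw [hκ, ← mul_pow, mul_comm, k6, one_pow]
      · have k1 : ∀ δ : F, ¬ (m * δ = r * δ ∧ m * δ ≠ 0) := by
          rintro δ ⟨h1, h2⟩
          have hδ : δ ≠ 0 := right_ne_zero_of_mul h2
          exact hmr (mul_right_cancel₀ hδ h1)
        rw [Finset.sum_eq_zero (fun δ _ => if_neg (k1 δ)), if_neg (fun h => hmr h.1), add_zero]
    · rw [if_neg hj]
      have k0 : e (((m + r) / (m ^ 2 * r * j)) ^ 2) = e ((m + r) / (m ^ 2 * r * j)) := hsq _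
      by_cases hmr : m = r
      · subst hmr
        have k1 : ∀ δ : F, ¬ (m * δ = m * (δ + j) ∧ m * δ ≠ 0) := by
          rintro δ ⟨h1, h2⟩
          have := mul_left_cancel₀ hm h1
          simp at this
          exact hj this
        rw [Finset.sum_eq_zero (fun δ _ => if_neg (k1 δ)), if_pos ⟨rfl, hm⟩, zero_add,
          CharTwo.add_self_eq_zero]
        congr 1
        rw [zero_div, zero_div]
        ring
      · have hs : m + r ≠ 0 := fun h => hmr (CharTwo.add_eq_zero.1 h)
        have k1 : ∀ δ : F, (m * δ = r * (δ + j) ∧ m * δ ≠ 0) ↔ δ = r * j / (m + r) := by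
          intro δ
          rw [eq_div_iff hs]
          constructor
          · rintro ⟨h, -⟩
            linear_combination h + (CharTwo.add_self_eq_zero (r * δ))
          · intro h
            refine ⟨?_, ?_⟩
            · linear_combination h - (CharTwo.add_self_eq_zero (r * δ))
            · intro h0
              have : δ = 0 := (mul_eq_zero.1 h0).resolve_left hm
              rw [this, zero_mul] at h
              exact (mul_ne_zero hr hj) h.symm
        simp only [k1, Finset.sum_ite_eq', mem_univ, if_true, hmr, false_and, if_false, add_zero]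
        have k2 : ((r * j / (m + r)) ^ 2 + r * j / (m + r) + C) / (m * (r * j / (m + r))) ^ 2 =
            (m + r) / (m ^ 2 * r * j) + ((m ^ 2)⁻¹ + C * ((m + r) / (m * r * j)) ^ 2) := by
          field_simp
          ring
        rw [k2, AddChar.map_add_eq_mul, ← k0, ← AddChar.map_add_eq_mul]
        congr 1; ring
  rw [q5]
  unfold S4
  congr 2
  split_ifs <;> simp

end Pool.Agent.V7H85.BS
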