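import Pool.Agent.V7H85.BS.K4

/-! The four point identity, symmetry. -/

set_option autoImplicit false

namespace Pool.Agent.V7H85.BS

open Finset Matrix
open Pool.Agent.R478.BES

variable {F : Type} [Field F] [Fintype F] [DecidableEq F] [CharP F 2]

omit [Fintype F] [DecidableEq F] in
theorem alg1 (a b s d c j X Z T W : F) (hx : a ^ 2 * X = 1) (hz : b ^ 2 * Z = 1)
    (ht : s ^ 2 * T = 1) (hw : d ^ 2 * W = 1) (hj : j ^ 2 + j = X + Z + T + W) :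
    (c ^ 2 + a * b * (s * d) * c + (a * b + s * d) ^ 2) * (c ^ 2 * (1 + X + Z) + (s * d * j) ^ 2) +
    (c ^ 2 + a * b * (s * d) * c + (a * d + s * b) ^ 2) * (c ^ 2 * (1 + X + W) + (s * b * j) ^ 2) +
    (c ^ 2 + a * b * (s * d) * j * c) ^ 2 * (Z + W) =
    ((b ^ 2 + d ^ 2) * (a * b * (s * d) * c * Z * W + s ^ 2 * j)) ^ 2 +
    (c ^ 2 + a * b * (s * d) * j * c) * ((b ^ 2 + d ^ 2) * (a * b * (s * d) * c * Z * W + s ^ 2 * j)) := by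
  grind

omit [Fintype F] [DecidableEq F] in
theorem alg2 (a b s d j J X Z T W : F) (hx : a ^ 2 * X = 1) (hz : b ^ 2 * Z = 1)
    (ht : s ^ 2 * T = 1) (hw : d ^ 2 * W = 1) (hj : j ^ 2 + j = X + Z + T + W) (hJ : j * J = 1) :
    (X + Z + (X * Z + (a * b + s * d) ^ 2 * X ^ 2 * Z ^ 2 * T * W * J ^ 2 +
      (1 + X + Z) * ((a * b + s * d) ^ 2 * X * Z * T * W * J ^ 2))) +
    (X + W + (X * W + (a * d + s * b) ^ 2 * X ^ 2 * W ^ 2 * T * Z * J ^ 2 +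
      (1 + X + W) * ((a * d + s * b) ^ 2 * X * W * T * Z * J ^ 2))) =
    ((1 + X) * (Z + W) * J) ^ 2 + (1 + X) * (Z + W) * J := by
  have h1 : (a * b + s * d) ^ 2 * X * Z * T * W = T * W + X * Z := by grind
  have h2 : (a * d + s * b) ^ 2 * X * W * T * Z = T * Z + X * W := by grind
  have h3 : (a * b + s * d) ^ 2 * X ^ 2 * Z ^ 2 * T * W = (T * W + X * Z) * (X * Z) := by
    rw [← h1]; ring
  have h4 : (a * d + s * b) ^ 2 * X ^ 2 * W ^ 2 * T * Z = (T * Z + X * W) * (X * W) := by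
    rw [← h2]; ring
  rw [h3, h4, h1, h2]
  have h5 : T = j ^ 2 + j + X + Z + W := by grind
  have h6 : J ^ 2 * j ^ 2 = 1 := by rw [← mul_pow, mul_comm, hJ, one_pow]
  have h7 : J ^ 2 * j = J := by rw [sq, mul_assoc, mul_comm J j, hJ, mul_one]
  rw [h5]
  grind

omit [Fintype F] [DecidableEq F] [CharP F 2] in
theorem e_add_eq (e : AddChar F ℂ) (A B P : F) (h : e (A + B) = 1) (h2 : e B * e B = 1) :
    e (P + A) = e (P + B) := by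
  rw [AddChar.map_add_eq_mul] at h
  rw [AddChar.map_add_eq_mul, AddChar.map_add_eq_mul]
  have : e A = e B := by linear_combination (e B) * h - (e A) * h2
  rw [this]

omit [Fintype F] [DecidableEq F] in
theorem e_eq_of (e : AddChar F ℂ) (hsq : ∀ x, e (x ^ 2) = e x) (A B g : F)
    (h : A + B = g ^ 2 + g) : e A = e B := by
  have h1 : e (A + B) = 1 := by rw [h, AddChar.map_add_eq_mul, hsq, e_self]
  rw [AddChar.map_add_eq_mul] at h1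
  have h2 := e_self e B
  linear_combination (e B) * h1 - (e A) * h2

theorem S4_sym (e : AddChar F ℂ) (G : F → ℂ) (hsq : ∀ x, e (x ^ 2) = e x)
    (a b s d j : F) (ha : a ≠ 0) (hb : b ≠ 0) (hs : s ≠ 0) (hd : d ≠ 0)
    (hj : j ^ 2 + j = (a ^ 2)⁻¹ + (b ^ 2)⁻¹ + (s ^ 2)⁻¹ + (d ^ 2)⁻¹) :
    e ((a ^ 2)⁻¹ + (b ^ 2)⁻¹) * S4 e G (a * b) (s * d) (1 + (a ^ 2)⁻¹ + (b ^ 2)⁻¹) j =
      e ((a ^ 2)⁻¹ + (d ^ 2)⁻¹) * S4 e G (a * d) (s * b) (1 + (a ^ 2)⁻¹ + (d ^ 2)⁻¹) j := by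
  unfold S4
  rw [Finset.mul_sum, Finset.mul_sum]
  refine Finset.sum_congr rfl fun c _ => ?_
  have e1 : a * d * (s * b) = a * b * (s * d) := by ring
  rw [e1]
  by_cases h : c ^ 2 + a * b * (s * d) * j * c ≠ 0
  · rw [if_pos h, if_pos h]
    have k := alg1 a b s d c j (a ^ 2)⁻¹ (b ^ 2)⁻¹ (s ^ 2)⁻¹ (d ^ 2)⁻¹
      (mul_inv_cancel₀ (pow_ne_zero 2 ha)) (mul_inv_cancel₀ (pow_ne_zero 2 hb))
      (mul_inv_cancel₀ (pow_ne_zero 2 hs)) (mul_inv_cancel₀ (pow_ne_zero 2 hd)) hj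
    generalize (c ^ 2 + a * b * (s * d) * j * c) = B at k h ⊢
    generalize ((b ^ 2 + d ^ 2) * (a * b * (s * d) * c * (b ^ 2)⁻¹ * (d ^ 2)⁻¹ + s ^ 2 * j)) = H
      at k
    generalize (c ^ 2 + a * b * (s * d) * c + (a * b + s * d) ^ 2) *
      (c ^ 2 * (1 + (a ^ 2)⁻¹ + (b ^ 2)⁻¹) + (s * d * j) ^ 2) = P at k ⊢
    generalize (c ^ 2 + a * b * (s * d) * c + (a * d + s * b) ^ 2) *
      (c ^ 2 * (1 + (a ^ 2)⁻¹ + (d ^ 2)⁻¹) + (s * b * j) ^ 2) = P' at k ⊢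
    have h3 : e ((a ^ 2)⁻¹ + (b ^ 2)⁻¹ + P / B ^ 2) = e ((a ^ 2)⁻¹ + (d ^ 2)⁻¹ + P' / B ^ 2) := by
      apply e_eq_of e hsq _ _ (H / B)
      have h4 : P + P' + B ^ 2 * ((b ^ 2)⁻¹ + (d ^ 2)⁻¹) = H ^ 2 + B * H := k
      have h5 : (P + P') / B ^ 2 + ((b ^ 2)⁻¹ + (d ^ 2)⁻¹) = (H / B) ^ 2 + H / B := by
        have h6 : B ^ 2 ≠ 0 := pow_ne_zero 2 h
        have h7 : (P + P') / B ^ 2 + ((b ^ 2)⁻¹ + (d ^ 2)⁻¹) =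
            (P + P' + B ^ 2 * ((b ^ 2)⁻¹ + (d ^ 2)⁻¹)) / B ^ 2 := by
          rw [add_div (P + P'), mul_div_cancel_left₀ _ h6]
        rw [h7, h4]
        field_simp
      rw [← h5, add_div]
      have h8 : (a ^ 2)⁻¹ + (a ^ 2)⁻¹ = 0 := CharTwo.add_self_eq_zero _
      linear_combination h8
    rw [AddChar.map_add_eq_mul _ _ (P / B ^ 2), AddChar.map_add_eq_mul _ _ (P' / B ^ 2)] at h3
    linear_combination (G c) * h3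
  · rw [if_neg h, if_neg h]; ring

theorem C4_sym (e : AddChar F ℂ) (hsq : ∀ x, e (x ^ 2) = e x)
    (a b s d j : F) (ha : a ≠ 0) (hb : b ≠ 0) (hs : s ≠ 0) (hd : d ≠ 0)
    (hj : j ^ 2 + j = (a ^ 2)⁻¹ + (b ^ 2)⁻¹ + (s ^ 2)⁻¹ + (d ^ 2)⁻¹) :
    e ((a ^ 2)⁻¹ + (b ^ 2)⁻¹) * C4 e (a * b) (s * d) (1 + (a ^ 2)⁻¹ + (b ^ 2)⁻¹) j =
      e ((a ^ 2)⁻¹ + (d ^ 2)⁻¹) * C4 e (a * d) (s * b) (1 + (a ^ 2)⁻¹ + (d ^ 2)⁻¹) j := by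
  unfold C4
  by_cases h0 : j = 0
  · simp [h0]
  · rw [if_neg h0, if_neg h0, ← AddChar.map_add_eq_mul, ← AddChar.map_add_eq_mul]
    have k := alg2 a b s d j j⁻¹ (a ^ 2)⁻¹ (b ^ 2)⁻¹ (s ^ 2)⁻¹ (d ^ 2)⁻¹
      (mul_inv_cancel₀ (pow_ne_zero 2 ha)) (mul_inv_cancel₀ (pow_ne_zero 2 hb))
      (mul_inv_cancel₀ (pow_ne_zero 2 hs)) (mul_inv_cancel₀ (pow_ne_zero 2 hd)) hj
      (mul_inv_cancel₀ h0)
    apply e_eq_of e hsq _ _ ((1 + (a ^ 2)⁻¹) * ((b ^ 2)⁻¹ + (d ^ 2)⁻¹) * j⁻¹)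
    rw [← k]
    have e1 : ((a * b) ^ 2)⁻¹ = (a ^ 2)⁻¹ * (b ^ 2)⁻¹ := by rw [mul_pow, mul_inv]
    have e2 : ((a * d) ^ 2)⁻¹ = (a ^ 2)⁻¹ * (d ^ 2)⁻¹ := by rw [mul_pow, mul_inv]
    have e3 : ((a * b + s * d) / ((a * b) ^ 2 * (s * d) * j)) ^ 2 =
        (a * b + s * d) ^ 2 * (a ^ 2)⁻¹ ^ 2 * (b ^ 2)⁻¹ ^ 2 * (s ^ 2)⁻¹ * (d ^ 2)⁻¹ * j⁻¹ ^ 2 := by
      field_simp
    have e4 : ((a * d + s * b) / ((a * d) ^ 2 * (s * b) * j)) ^ 2 =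
        (a * d + s * b) ^ 2 * (a ^ 2)⁻¹ ^ 2 * (d ^ 2)⁻¹ ^ 2 * (s ^ 2)⁻¹ * (b ^ 2)⁻¹ * j⁻¹ ^ 2 := by
      field_simp
    have e5 : ((a * b + s * d) / ((a * b) * (s * d) * j)) ^ 2 =
        (a * b + s * d) ^ 2 * (a ^ 2)⁻¹ * (b ^ 2)⁻¹ * (s ^ 2)⁻¹ * (d ^ 2)⁻¹ * j⁻¹ ^ 2 := by
      field_simp
    have e6 : ((a * d + s * b) / ((a * d) * (s * b) * j)) ^ 2 =
        (a * d + s * b) ^ 2 * (a ^ 2)⁻¹ * (d ^ 2)⁻¹ * (s ^ 2)⁻¹ * (b ^ 2)⁻¹ * j⁻¹ ^ 2 := by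
      field_simp
    rw [e1, e2, e3, e4, e5, e6]

/-- the sum for given `j`. -/
noncomputable def TT (G : F → ℂ) (m r C j : F) : ℂ :=
  (∑ δ : F, if δ ^ 2 + δ + C = 0 then 0 else
      G ((m * δ) ^ 2 / (δ ^ 2 + δ + C)) * G ((r * (δ + j)) ^ 2 / (δ ^ 2 + δ + C))) +
        G (m ^ 2) * G (r ^ 2)

theorem B4eval (e : AddChar F ℂ) (G : F → ℂ) (hne : e ≠ 1) (h1 : e 1 = -1)
    (hsq : ∀ x, e (x ^ 2) = e x) (a b s d : F) :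
    B4 e G (a ^ 2) (b ^ 2) (s ^ 2) (d ^ 2) =
      - e ((a ^ 2)⁻¹ + (b ^ 2)⁻¹) * (∑ j : F,
        if j ^ 2 + j = (a ^ 2)⁻¹ + (b ^ 2)⁻¹ + (s ^ 2)⁻¹ + (d ^ 2)⁻¹ then
          TT G (a * b) (s * d) (1 + (a ^ 2)⁻¹ + (b ^ 2)⁻¹) j else 0) -
      (if a ^ 2 = b ^ 2 ∧ s ^ 2 = d ^ 2 then
        (Fintype.card F : ℂ) * e ((b ^ 2)⁻¹ + (s ^ 2)⁻¹) else 0) := by
  have hchar : ∀ a b : F, a = b ↔ a + b = 0 := fun a b => CharTwo.add_eq_zero.symm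
  unfold B4
  congr 1
  have q1 := kap_sum G (a ^ 2) (b ^ 2) (fun y => e y⁻¹ * kap G y (s ^ 2) (d ^ 2)) hchar
  simp only [inv_inv, ← mul_assoc] at q1
  rw [q1]
  obtain ⟨C, hC⟩ : ∃ C, C = 1 + (a ^ 2)⁻¹ + (b ^ 2)⁻¹ := ⟨_, rfl⟩
  obtain ⟨E, hE⟩ : ∃ E, E = (a ^ 2)⁻¹ + (b ^ 2)⁻¹ + (s ^ 2)⁻¹ + (d ^ 2)⁻¹ := ⟨_, rfl⟩
  have heC : e C = - e ((a ^ 2)⁻¹ + (b ^ 2)⁻¹) := by rw [hC, e_one_add e h1]
  rw [← hC, ← hE]
  have q2 : ∀ δ : F, (if δ ^ 2 + δ + C = 0 then 0 else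
      G (a ^ 2 * b ^ 2 * δ ^ 2 / (δ ^ 2 + δ + C)) * e (δ ^ 2 + δ + C) *
        kap G (δ ^ 2 + δ + C)⁻¹ (s ^ 2) (d ^ 2)) =
      - ∑ j : F, if j ^ 2 + j = E then e C * (if δ ^ 2 + δ + C = 0 then 0 else
        G ((a * b * δ) ^ 2 / (δ ^ 2 + δ + C)) * G ((s * d * (δ + j)) ^ 2 / (δ ^ 2 + δ + C)))
        else 0 := by
    intro δ
    by_cases hY : δ ^ 2 + δ + C = 0
    · simp [hY]
    · rw [if_neg hY, e_quad e hsq]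
      unfold kap
      rw [mul_neg, Finset.mul_sum]
      congr 1
      symm
      refine Fintype.sum_equiv (Equiv.addLeft δ) _ _ fun j => ?_
      simp only [Equiv.coe_addLeft]
      have k1 : ((δ + j) ^ 2 + (δ + j) = 1 + (δ ^ 2 + δ + C)⁻¹⁻¹ + (s ^ 2)⁻¹ + (d ^ 2)⁻¹) ↔
          (j ^ 2 + j = E) := by
        rw [hchar ((δ + j) ^ 2 + (δ + j)), hchar (j ^ 2 + j), inv_inv]
        have : (δ + j) ^ 2 + (δ + j) + (1 + (δ ^ 2 + δ + C) + (s ^ 2)⁻¹ + (d ^ 2)⁻¹) =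
            j ^ 2 + j + E := by rw [hE, hC]; grind
        rw [this]
      simp only [k1, if_neg hY]
      have k2 : (a * b * δ) ^ 2 = a ^ 2 * b ^ 2 * δ ^ 2 := by ring
      have k3 : (s * d * (δ + j)) ^ 2 / (δ ^ 2 + δ + C) =
          (δ ^ 2 + δ + C)⁻¹ * s ^ 2 * d ^ 2 * (δ + j) ^ 2 := by
        rw [div_eq_mul_inv]; ring
      rw [k2, k3]
      split_ifs
      · ring
      · ring
  rw [Finset.sum_congr rfl fun δ _ => q2 δ, Finset.sum_neg_distrib, Finset.sum_comm, neg_neg]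
  have q3 : ∀ j : F, (∑ δ : F, if j ^ 2 + j = E then e C * (if δ ^ 2 + δ + C = 0 then 0 else
        G ((a * b * δ) ^ 2 / (δ ^ 2 + δ + C)) * G ((s * d * (δ + j)) ^ 2 / (δ ^ 2 + δ + C)))
        else 0) = e C * (if j ^ 2 + j = E then TT G (a * b) (s * d) C j else 0) -
        e C * (G ((a * b) ^ 2) * G ((s * d) ^ 2)) * (if j ^ 2 + j = E then 1 else 0) := by
    intro j
    unfold TT
    by_cases hj : j ^ 2 + j = E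
    · simp only [hj, if_true]
      rw [← Finset.mul_sum]; ring
    · simp [hj]
  rw [Finset.sum_congr rfl fun j _ => q3 j, Finset.sum_sub_distrib, ← Finset.mul_sum,
    ← Finset.mul_sum, AS e hne hsq, heC]
  have q4 : e E = e ((a ^ 2)⁻¹ + (b ^ 2)⁻¹) * e ((s ^ 2)⁻¹ + (d ^ 2)⁻¹) := by
    rw [hE, ← AddChar.map_add_eq_mul]; congr 1; ring
  have q5 := e_self e ((a ^ 2)⁻¹ + (b ^ 2)⁻¹)
  rw [q4]
  have q6 : (a * b) ^ 2 = a ^ 2 * b ^ 2 := by ring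
  have q7 : (s * d) ^ 2 = s ^ 2 * d ^ 2 := by ring
  rw [q6, q7]
  linear_combination (G (a ^ 2 * b ^ 2) * G (s ^ 2 * d ^ 2) * e ((s ^ 2)⁻¹ + (d ^ 2)⁻¹)) * q5

end Pool.Agent.V7H85.BS
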