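import Pool.Agent.V7H85.BS.K4b

/-! The four point identity, end. -/

set_option autoImplicit false

namespace Pool.Agent.V7H85.BS

open Finset Matrix
open Pool.Agent.R478.BES

variable {F : Type} [Field F] [Fintype F] [DecidableEq F] [CharP F 2]

omit [Fintype F] [DecidableEq F] in
theorem unit_of (a b X Z : F) (hx : a ^ 2 * X = 1) (hz : b ^ 2 * Z = 1)
    (h : (a * b) ^ 2 * (1 + X + Z) = 1) : a = 1 ∨ b = 1 := by
  have h1 : ((1 + a) * (1 + b)) ^ 2 = 0 := by grind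
  have h2 := pow_eq_zero_iff (two_ne_zero) |>.1 h1
  rcases mul_eq_zero.1 h2 with h3 | h3
  · left; exact (CharTwo.add_eq_zero.1 h3).symm
  · right; exact (CharTwo.add_eq_zero.1 h3).symm

/-- the evaluation of `T` in the generic case. -/
theorem TTeval (e : AddChar F ℂ) (G : F → ℂ) (hne : e ≠ 1) (hsq : ∀ x, e (x ^ 2) = e x)
    (hG : GData e G) (a b s d j : F) (ha : a ≠ 0) (hb : b ≠ 0) (hs : s ≠ 0) (hd : d ≠ 0)
    (hb1 : b ≠ 1) (hd1 : d ≠ 1) (has : a ≠ s)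
    (hj : j ^ 2 + j = (a ^ 2)⁻¹ + (b ^ 2)⁻¹ + (s ^ 2)⁻¹ + (d ^ 2)⁻¹) :
    TT G (a * b) (s * d) (1 + (a ^ 2)⁻¹ + (b ^ 2)⁻¹) j =
      S4 e G (a * b) (s * d) (1 + (a ^ 2)⁻¹ + (b ^ 2)⁻¹) j +
      (if j = 0 ∧ a = d ∧ b = s then (Fintype.card F : ℂ) else 0) -
      C4 e (a * b) (s * d) (1 + (a ^ 2)⁻¹ + (b ^ 2)⁻¹) j := by
  have hx := mul_inv_cancel₀ (pow_ne_zero 2 ha)
  have hz := mul_inv_cancel₀ (pow_ne_zero 2 hb)
  have ht := mul_inv_cancel₀ (pow_ne_zero 2 hs)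
  have hw := mul_inv_cancel₀ (pow_ne_zero 2 hd)
  unfold TT
  generalize (a ^ 2)⁻¹ = X at *
  generalize (b ^ 2)⁻¹ = Z at *
  generalize (s ^ 2)⁻¹ = T at *
  generalize (d ^ 2)⁻¹ = W at *
  have hcase : j = 0 → a * b = s * d → a = d ∧ b = s := by
    intro h0 hm
    subst h0
    have h1 : X + Z + T + W = 0 := by rw [← hj]; ring
    have h2 : (a * b) ^ 2 = (s * d) ^ 2 := by rw [hm]
    -- X Z = T W
    have h3 : X * Z = T * W := by
      have k1 : (a * b) ^ 2 * (X * Z) = 1 := by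
        linear_combination hz + (b ^ 2 * Z) * hx
      have k2 : (a * b) ^ 2 * (T * W) = 1 := by
        rw [h2]; linear_combination hw + (d ^ 2 * W) * ht
      have k3 : (a * b) ^ 2 ≠ 0 := pow_ne_zero 2 (mul_ne_zero ha hb)
      exact mul_left_cancel₀ k3 (k1.trans k2.symm)
    have h4 : (X + T) * (X + W) = 0 := by
      have : T + W = X + Z := by
        have := CharTwo.add_eq_zero.1 (show (X + Z) + (T + W) = 0 by rw [← h1]; ring)
        exact this.symm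
      have h5 : (X + T) * (X + W) = X * X + X * (T + W) + T * W := by ring
      rw [h5, this, ← h3]
      have h6 : X * X + X * X = 0 := CharTwo.add_self_eq_zero _
      have h7 : X * Z + X * Z = 0 := CharTwo.add_self_eq_zero _
      linear_combination h6 + h7
    rcases mul_eq_zero.1 h4 with h5 | h5
    · exfalso
      apply has
      have h6 : X = T := CharTwo.add_eq_zero.1 h5
      rw [← h6] at ht
      have hX0 : X ≠ 0 := by rintro rfl; simp at hx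
      exact sq_inj.1 (mul_right_cancel₀ hX0 (hx.trans ht.symm))
    · have h6 : X = W := CharTwo.add_eq_zero.1 h5
      rw [← h6] at hw
      have hX0 : X ≠ 0 := by rintro rfl; simp at hx
      have h7 : a = d := sq_inj.1 (mul_right_cancel₀ hX0 (hx.trans hw.symm))
      refine ⟨h7, ?_⟩
      rw [h7] at hm
      exact mul_left_cancel₀ hd (by rw [hm]; ring)
  have hT := T4 e G hne hsq hG (a * b) (s * d) (1 + X + Z) j (mul_ne_zero ha hb)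
    (mul_ne_zero hs hd) ?_ ?_
  · rw [hT]
    congr 2
    have h1 : (j = 0 ∧ a * b = s * d) ↔ (j = 0 ∧ a = d ∧ b = s) := by
      constructor
      · rintro ⟨h0, hm⟩; exact ⟨h0, hcase h0 hm⟩
      · rintro ⟨h0, h1, h2⟩; exact ⟨h0, by rw [h1, h2]; ring⟩
    simp only [h1]
  · rintro ⟨h1, h2⟩
    have h3 : a = 1 := (unit_of a b X Z hx hz h1).resolve_right hb1
    have h4 : (s * d) ^ 2 * (1 + T + W) = 1 := by
      have hab : (a * b) ^ 2 ≠ 0 := pow_ne_zero 2 (mul_ne_zero ha hb)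
      apply mul_left_cancel₀ hab
      have h5 : (1 + T + W : F) = (1 + X + Z) + (j ^ 2 + j) := by
        rw [hj]
        have k1 : X + X = 0 := CharTwo.add_self_eq_zero _
        have k2 : Z + Z = 0 := CharTwo.add_self_eq_zero _
        linear_combination - k1 - k2
      rw [h5]
      have k3 : (s * d) ^ 2 + (s * d) ^ 2 = 0 := CharTwo.add_self_eq_zero _
      linear_combination (s * d) ^ 2 * h1 + h2 + k3
    have h5 : s = 1 := (unit_of s d T W ht hw h4).resolve_right hd1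
    exact has (h3.trans h5.symm)
  · intro h0 hm h1
    have h3 : a = 1 := (unit_of a b X Z hx hz h1).resolve_right hb1
    exact hd1 ((hcase h0 hm).1.symm.trans h3)

theorem B4gen (e : AddChar F ℂ) (G : F → ℂ) (hne : e ≠ 1) (h1 : e 1 = -1)
    (hsq : ∀ x, e (x ^ 2) = e x) (hG : GData e G)
    (a b s d : F) (ha : a ≠ 0) (hb : b ≠ 0) (hs : s ≠ 0) (hd : d ≠ 0)
    (hb1 : b ≠ 1) (hd1 : d ≠ 1) (has : a ≠ s) :
    B4 e G (a ^ 2) (b ^ 2) (s ^ 2) (d ^ 2) =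
      - (∑ j : F, if j ^ 2 + j = (a ^ 2)⁻¹ + (b ^ 2)⁻¹ + (s ^ 2)⁻¹ + (d ^ 2)⁻¹ then
        (e ((a ^ 2)⁻¹ + (b ^ 2)⁻¹) * S4 e G (a * b) (s * d) (1 + (a ^ 2)⁻¹ + (b ^ 2)⁻¹) j -
         e ((a ^ 2)⁻¹ + (b ^ 2)⁻¹) * C4 e (a * b) (s * d) (1 + (a ^ 2)⁻¹ + (b ^ 2)⁻¹) j) else 0) -
      (if a = d ∧ b = s then (Fintype.card F : ℂ) * e ((a ^ 2)⁻¹ + (b ^ 2)⁻¹) else 0) -
      (if a = b ∧ s = d then (Fintype.card F : ℂ) * e ((b ^ 2)⁻¹ + (s ^ 2)⁻¹) else 0) := by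
  rw [B4eval e G hne h1 hsq]
  simp only [sq_inj]
  congr 1
  obtain ⟨E, hE⟩ : ∃ E, E = (a ^ 2)⁻¹ + (b ^ 2)⁻¹ + (s ^ 2)⁻¹ + (d ^ 2)⁻¹ := ⟨_, rfl⟩
  have q1 : ∀ j : F, (if j ^ 2 + j = E then
      TT G (a * b) (s * d) (1 + (a ^ 2)⁻¹ + (b ^ 2)⁻¹) j else 0) =
      (if j ^ 2 + j = E then (S4 e G (a * b) (s * d) (1 + (a ^ 2)⁻¹ + (b ^ 2)⁻¹) j -
        C4 e (a * b) (s * d) (1 + (a ^ 2)⁻¹ + (b ^ 2)⁻¹) j) else 0) +
      (if j = 0 then (if a = d ∧ b = s then (Fintype.card F : ℂ) else 0) else 0) := by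
    intro j
    by_cases hj : j ^ 2 + j = E
    · rw [if_pos hj, if_pos hj, TTeval e G hne hsq hG a b s d j ha hb hs hd hb1 hd1 has
        (by rw [hj, hE])]
      have : (if j = 0 ∧ a = d ∧ b = s then (Fintype.card F : ℂ) else 0) =
        (if j = 0 then (if a = d ∧ b = s then (Fintype.card F : ℂ) else 0) else 0) := by
        by_cases h0 : j = 0 <;> simp [h0]
      rw [this]; ring
    · rw [if_neg hj, if_neg hj]
      by_cases h0 : j = 0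
      · rw [if_pos h0, if_neg, add_zero]
        rintro ⟨h2, h3⟩
        apply hj
        rw [hE, h0, h2, h3]
        have k1 : (d ^ 2)⁻¹ + (d ^ 2)⁻¹ = 0 := CharTwo.add_self_eq_zero _
        have k2 : (s ^ 2)⁻¹ + (s ^ 2)⁻¹ = 0 := CharTwo.add_self_eq_zero _
        linear_combination - k1 - k2
      · rw [if_neg h0, add_zero]
  rw [← hE, Finset.sum_congr rfl fun j _ => q1 j, Finset.sum_add_distrib, Finset.sum_ite_eq']
  simp only [mem_univ, if_true]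
  have q2 : ∀ j : F, (if j ^ 2 + j = E then
        (e ((a ^ 2)⁻¹ + (b ^ 2)⁻¹) * S4 e G (a * b) (s * d) (1 + (a ^ 2)⁻¹ + (b ^ 2)⁻¹) j -
         e ((a ^ 2)⁻¹ + (b ^ 2)⁻¹) * C4 e (a * b) (s * d) (1 + (a ^ 2)⁻¹ + (b ^ 2)⁻¹) j) else 0) =
      e ((a ^ 2)⁻¹ + (b ^ 2)⁻¹) * (if j ^ 2 + j = E then
        (S4 e G (a * b) (s * d) (1 + (a ^ 2)⁻¹ + (b ^ 2)⁻¹) j -
        C4 e (a * b) (s * d) (1 + (a ^ 2)⁻¹ + (b ^ 2)⁻¹) j) else 0) := by
    intro j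
    split_ifs <;> ring
  rw [Finset.sum_congr rfl fun j _ => q2 j, ← Finset.mul_sum]
  split_ifs <;> ring

theorem kap_swap (G : F → ℂ) (x y z : F) : kap G x y z = kap G y x z := by
  unfold kap
  congr 1
  refine Finset.sum_congr rfl fun δ _ => ?_
  have h1 : 1 + x⁻¹ + y⁻¹ + z⁻¹ = 1 + y⁻¹ + x⁻¹ + z⁻¹ := by ring
  have h2 : x * y * z * δ ^ 2 = y * x * z * δ ^ 2 := by ring
  rw [h1, h2]

theorem kap_swap13 (G : F → ℂ) (x y z : F) : kap G x y z = kap G z y x := by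
  unfold kap
  congr 1
  refine Finset.sum_congr rfl fun δ _ => ?_
  have h1 : 1 + x⁻¹ + y⁻¹ + z⁻¹ = 1 + z⁻¹ + y⁻¹ + x⁻¹ := by ring
  have h2 : x * y * z * δ ^ 2 = z * y * x * δ ^ 2 := by ring
  rw [h1, h2]

theorem t_K4 : S_K4 := by
  intro F _ _ _ _ e G hne h1 hsq hG x z t w hx ht hz hz1 hw hw1
  by_cases hxt : x = t
  · subst hxt
    unfold B4
    have k1 : ∑ y : Fˣ, kap G x y z * e (y : F)⁻¹ * kap G y x w =
        ∑ y : Fˣ, kap G x y w * e (y : F)⁻¹ * kap G y x z := by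
      refine Finset.sum_congr rfl fun y _ => ?_
      rw [kap_swap G x y z, kap_swap G y x w]; ring
    rw [k1]
    congr 1
    · ring
    · by_cases h1 : x = z
      · by_cases h2 : x = w
        · rw [← h1, ← h2]
        · rw [if_neg (fun h => h2 h.2), if_neg (fun h => h2 h.1)]
      · rw [if_neg (fun h => h1 h.1), if_neg (fun h => h1 h.2)]
  obtain ⟨a, rfl⟩ := exists_sq x
  obtain ⟨b, rfl⟩ := exists_sq z
  obtain ⟨s, rfl⟩ := exists_sq t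
  obtain ⟨d, rfl⟩ := exists_sq w
  have ha : a ≠ 0 := by rintro rfl; simp at hx
  have hb : b ≠ 0 := by rintro rfl; simp at hz
  have hs : s ≠ 0 := by rintro rfl; simp at ht
  have hd : d ≠ 0 := by rintro rfl; simp at hw
  have hb1 : b ≠ 1 := by rintro rfl; simp at hz1
  have hd1 : d ≠ 1 := by rintro rfl; simp at hw1
  have has : a ≠ s := fun h => hxt (by rw [h])
  rw [B4gen e G hne h1 hsq hG a b s d ha hb hs hd hb1 hd1 has,
    B4gen e G hne h1 hsq hG a d s b ha hd hs hb hd1 hb1 has]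
  have q1 : (∑ j : F, if j ^ 2 + j = (a ^ 2)⁻¹ + (b ^ 2)⁻¹ + (s ^ 2)⁻¹ + (d ^ 2)⁻¹ then
        (e ((a ^ 2)⁻¹ + (b ^ 2)⁻¹) * S4 e G (a * b) (s * d) (1 + (a ^ 2)⁻¹ + (b ^ 2)⁻¹) j -
         e ((a ^ 2)⁻¹ + (b ^ 2)⁻¹) * C4 e (a * b) (s * d) (1 + (a ^ 2)⁻¹ + (b ^ 2)⁻¹) j) else 0) =
      (∑ j : F, if j ^ 2 + j = (a ^ 2)⁻¹ + (d ^ 2)⁻¹ + (s ^ 2)⁻¹ + (b ^ 2)⁻¹ then
        (e ((a ^ 2)⁻¹ + (d ^ 2)⁻¹) * S4 e G (a * d) (s * b) (1 + (a ^ 2)⁻¹ + (d ^ 2)⁻¹) j -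
         e ((a ^ 2)⁻¹ + (d ^ 2)⁻¹) * C4 e (a * d) (s * b) (1 + (a ^ 2)⁻¹ + (d ^ 2)⁻¹) j) else 0) := by
    refine Finset.sum_congr rfl fun j _ => ?_
    have k1 : (a ^ 2)⁻¹ + (d ^ 2)⁻¹ + (s ^ 2)⁻¹ + (b ^ 2)⁻¹ =
      (a ^ 2)⁻¹ + (b ^ 2)⁻¹ + (s ^ 2)⁻¹ + (d ^ 2)⁻¹ := by ring
    rw [k1]
    by_cases hj : j ^ 2 + j = (a ^ 2)⁻¹ + (b ^ 2)⁻¹ + (s ^ 2)⁻¹ + (d ^ 2)⁻¹
    · rw [if_pos hj, if_pos hj, S4_sym e G hsq a b s d j ha hb hs hd hj,
        C4_sym e hsq a b s d j ha hb hs hd hj]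
    · rw [if_neg hj, if_neg hj]
  rw [q1]
  have q2 : (if a = d ∧ b = s then (Fintype.card F : ℂ) * e ((a ^ 2)⁻¹ + (b ^ 2)⁻¹) else 0) =
      (if a = d ∧ s = b then (Fintype.card F : ℂ) * e ((d ^ 2)⁻¹ + (s ^ 2)⁻¹) else 0) := by
    by_cases c1 : a = d
    · by_cases c2 : b = s
      · rw [if_pos ⟨c1, c2⟩, if_pos ⟨c1, c2.symm⟩, c1, c2]
      · rw [if_neg (fun h => c2 h.2), if_neg (fun h => c2 h.2.symm)]
    · rw [if_neg (fun h => c1 h.1), if_neg (fun h => c1 h.1)]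
  have q3 : (if a = b ∧ s = d then (Fintype.card F : ℂ) * e ((b ^ 2)⁻¹ + (s ^ 2)⁻¹) else 0) =
      (if a = b ∧ d = s then (Fintype.card F : ℂ) * e ((a ^ 2)⁻¹ + (d ^ 2)⁻¹) else 0) := by
    by_cases c1 : a = b
    · by_cases c2 : s = d
      · rw [if_pos ⟨c1, c2⟩, if_pos ⟨c1, c2.symm⟩, c1, c2]
      · rw [if_neg (fun h => c2 h.2), if_neg (fun h => c2 h.2.symm)]
    · rw [if_neg (fun h => c1 h.1), if_neg (fun h => c1 h.1)]
  rw [q2, q3]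
  ring

end Pool.Agent.V7H85.BS
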