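import Pool.Agent.V7H85.BS.K4c

/-! The commuting matrices. -/

set_option autoImplicit false

namespace Pool.Agent.V7H85.BS

open Finset Matrix Sum
open Pool.Agent.R478.BES

variable {F : Type} [Field F] [Fintype F] [DecidableEq F]

/-- the matrix `K z`. -/
noncomputable def Kq (e : AddChar F ℂ) (G : F → ℂ) (s : ℂ) (z : Fˣ) :
    Matrix (Fˣ ⊕ Fin 3) (Fˣ ⊕ Fin 3) ℂ :=
  fun i j => match i, j with
  | inl x, inl y => kap G x y z * e (y : F)⁻¹
  | inl x, inr 0 => e ((z : F)⁻¹ + (x : F)⁻¹) * G (x * z)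
  | inl x, inr 1 => - G (x * z)
  | inl x, inr 2 => if x = z then - s * e (z : F)⁻¹ else 0
  | inr 0, inl y => - G (y * z) * e (y : F)⁻¹
  | inr 0, inr 0 => 0
  | inr 0, inr 1 => -1
  | inr 0, inr 2 => 0
  | inr 1, inl y => G (y * z) * e (z : F)⁻¹
  | inr 1, inr 0 => e (z : F)⁻¹
  | inr 1, inr 1 => 0
  | inr 1, inr 2 => 0
  | inr 2, inl y => if y = z then s else 0
  | inr 2, inr 0 => 0
  | inr 2, inr 1 => 0
  | inr 2, inr 2 => 0

theorem kap_swap23 (G : F → ℂ) (x y z : F) : kap G x y z = kap G x z y := by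
  unfold kap
  congr 1
  refine Finset.sum_congr rfl fun δ _ => ?_
  have h1 : 1 + x⁻¹ + y⁻¹ + z⁻¹ = 1 + x⁻¹ + z⁻¹ + y⁻¹ := by ring
  have h2 : x * y * z * δ ^ 2 = x * z * y * δ ^ 2 := by ring
  rw [h1, h2]

variable [CharP F 2]

theorem kap_supp (e : AddChar F ℂ) (G : F → ℂ) (h1 : e 1 = -1) (hsq : ∀ x, e (x ^ 2) = e x)
    (x y z : F) : kap G x y z * e (x⁻¹ + y⁻¹ + z⁻¹) = - kap G x y z := by
  unfold kap
  have h0 : (∑ d : F, if d ^ 2 + d = 1 + x⁻¹ + y⁻¹ + z⁻¹ then G (x * y * z * d ^ 2) else 0) *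
      e (x⁻¹ + y⁻¹ + z⁻¹) =
      - ∑ d : F, if d ^ 2 + d = 1 + x⁻¹ + y⁻¹ + z⁻¹ then G (x * y * z * d ^ 2) else 0 := by
    rw [Finset.sum_mul, ← Finset.sum_neg_distrib]
    refine Finset.sum_congr rfl fun d _ => ?_
    split_ifs with h
    · have h2 : e (d ^ 2 + d) = 1 := by rw [AddChar.map_add_eq_mul, hsq, e_self]
      rw [h] at h2
      have h3 : 1 + x⁻¹ + y⁻¹ + z⁻¹ = 1 + (x⁻¹ + y⁻¹ + z⁻¹) := by ring
      rw [h3, AddChar.map_add_eq_mul, h1] at h2
      have h4 : e (x⁻¹ + y⁻¹ + z⁻¹) = -1 := by linear_combination (-1 : ℂ) * h2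
      rw [h4]; ring
    · simp
  linear_combination (-1 : ℂ) * h0

theorem kap_conj (G : F → ℂ) (hG : ∀ c, (starRingEnd ℂ) (G c) = G c) (x y z : F) :
    (starRingEnd ℂ) (kap G x y z) = kap G x y z := by
  unfold kap
  rw [map_neg, map_sum]
  congr 1
  refine Finset.sum_congr rfl fun d _ => ?_
  split_ifs
  · exact hG _
  · simp

theorem Kq_conjTranspose (e : AddChar F ℂ) (G : F → ℂ) (s : ℂ) (hsr : (starRingEnd ℂ) s = s)
    (h1 : e 1 = -1) (hsq : ∀ x, e (x ^ 2) = e x) (hG : ∀ c, (starRingEnd ℂ) (G c) = G c)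
    (z : Fˣ) : (Kq e G s z)ᴴ = (- e (z : F)⁻¹) • Kq e G s z := by
  have hz := e_self e (z : F)⁻¹
  ext i j
  rw [Matrix.conjTranspose_apply, Matrix.smul_apply, smul_eq_mul]
  show (starRingEnd ℂ) (Kq e G s z j i) = _
  rcases i with x | i
  · have hx := e_self e (x : F)⁻¹
    rcases j with t | j
    · simp only [Kq]
      rw [map_mul, kap_conj G hG, e_conj, kap_swap G t x z]
      have k := kap_supp e G h1 hsq x t z
      rw [AddChar.map_add_eq_mul, AddChar.map_add_eq_mul] at k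
      have ht := e_self e (t : F)⁻¹
      linear_combination (e (x : F)⁻¹) * k - (kap G x t z * e (t : F)⁻¹ * e (z : F)⁻¹) * hx
    · fin_cases j
      · simp only [Kq, Fin.zero_eta]
        rw [map_mul, map_neg, hG, e_conj, AddChar.map_add_eq_mul]
        linear_combination (G (x * z) * e (x : F)⁻¹) * hz
      · simp only [Kq, Fin.mk_one]
        rw [map_mul, hG, e_conj]
        ring
      · simp only [Kq, Fin.reduceFinMk]
        by_cases h : x = z
        · simp only [h, if_true, hsr]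
          linear_combination (-s) * hz
        · simp [h]
  · fin_cases i
    · rcases j with t | j
      · simp only [Kq, Fin.zero_eta]
        rw [map_mul, hG, e_conj, AddChar.map_add_eq_mul]
        ring
      · fin_cases j
        · simp [Kq]
        · simp only [Kq, Fin.zero_eta, Fin.mk_one]
          rw [e_conj]; ring
        · simp [Kq]
    · rcases j with t | j
      · simp only [Kq, Fin.mk_one]
        rw [map_neg, hG]
        linear_combination (G (t * z)) * hz
      · fin_cases j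
        · simp only [Kq, Fin.zero_eta, Fin.mk_one]
          rw [map_neg, map_one]
          linear_combination hz
        · simp [Kq]
        · simp [Kq]
    · rcases j with t | j
      · simp only [Kq, Fin.reduceFinMk]
        by_cases h : t = z
        · simp only [h, if_true, map_mul, map_neg, hsr, e_conj]; ring
        · simp [h]
      · fin_cases j
        · simp [Kq]
        · simp [Kq]
        · simp [Kq]

section comm
variable (e : AddChar F ℂ) (G : F → ℂ) (hne : e ≠ 1) (h1 : e 1 = -1)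
  (hsq : ∀ x, e (x ^ 2) = e x) (hG : GData e G) (s : ℂ) (hs : s * s = Fintype.card F)
  (z w : Fˣ)

include hs in
theorem c_xt (x t : Fˣ) : (Kq e G s z * Kq e G s w) (inl x) (inl t) =
    e (t : F)⁻¹ * B4 e G x z t w := by
  rw [Matrix.mul_apply, sum_u3]
  simp only [Kq]
  unfold B4
  have ht := e_self e (t : F)⁻¹
  have q1 : (∑ y : Fˣ, kap G x y z * e (y : F)⁻¹ * (kap G y t w * e (t : F)⁻¹)) =
      e (t : F)⁻¹ * ∑ y : Fˣ, kap G x y z * e (y : F)⁻¹ * kap G y t w := by
    rw [Finset.mul_sum]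
    exact Finset.sum_congr rfl fun y _ => by ring
  have q2 : ((if x = z then - s * e (z : F)⁻¹ else 0) * if t = w then s else 0) =
      - (e (t : F)⁻¹ * (if (x : F) = z ∧ (t : F) = w then
        (Fintype.card F : ℂ) * e ((z : F)⁻¹ + (t : F)⁻¹) else 0)) := by
    simp only [Units.val_inj]
    by_cases c1 : x = z
    · by_cases c2 : t = w
      · rw [if_pos c1, if_pos c2, if_pos ⟨c1, c2⟩, ← hs, AddChar.map_add_eq_mul]
        linear_combination (s * s * e (z : F)⁻¹) * ht
      · rw [if_pos c1, if_neg c2, if_neg (fun h : x = z ∧ t = w => c2 h.2)]; ring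
    · rw [if_neg c1, if_neg (fun h : x = z ∧ t = w => c1 h.1)]; ring
  have a1 : e ((z : F)⁻¹ + (x : F)⁻¹) = e (z : F)⁻¹ * e (x : F)⁻¹ := AddChar.map_add_eq_mul _ _ _
  have a2 : e ((x : F)⁻¹ + (z : F)⁻¹) = e (x : F)⁻¹ * e (z : F)⁻¹ := AddChar.map_add_eq_mul _ _ _
  have a3 : e ((t : F)⁻¹ + (w : F)⁻¹) = e (t : F)⁻¹ * e (w : F)⁻¹ := AddChar.map_add_eq_mul _ _ _
  rw [q1, q2, a1, a2, a3]
  linear_combination (G (x * z) * G (t * w) * e (w : F)⁻¹) * ht

include h1 hsq in
theorem c_xp (x : Fˣ) : (Kq e G s z * Kq e G s w) (inl x) (inr 0) =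
    - (e (w : F)⁻¹ * e (x : F)⁻¹ * e (z : F)⁻¹) * B3 e G x z w := by
  rw [Matrix.mul_apply, sum_u3]
  simp only [Kq, mul_zero, add_zero]
  unfold B3
  have q1 : (∑ y : Fˣ, kap G x y z * e (y : F)⁻¹ * (e ((w : F)⁻¹ + (y : F)⁻¹) * G (y * w))) =
      - (e (w : F)⁻¹ * e (x : F)⁻¹ * e (z : F)⁻¹) *
        ∑ y : Fˣ, kap G x y z * e (y : F)⁻¹ * G (y * w) := by
    rw [Finset.mul_sum]
    refine Finset.sum_congr rfl fun y _ => ?_
    have k := kap_supp e G h1 hsq x y z
    rw [AddChar.map_add_eq_mul, AddChar.map_add_eq_mul] at k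
    have hy := e_self e (y : F)⁻¹
    rw [AddChar.map_add_eq_mul]
    linear_combination (e (w : F)⁻¹ * G (y * w)) * k +
      (kap G x y z * e (w : F)⁻¹ * G (y * w)) * hy
  have hx := e_self e (x : F)⁻¹
  have hz := e_self e (z : F)⁻¹
  rw [q1, AddChar.map_add_eq_mul]
  linear_combination (e (w : F)⁻¹ * G (x * z)) * hx +
    (e (w : F)⁻¹ * G (x * z) * e (x : F)⁻¹ * e (x : F)⁻¹) * hz

theorem c_xm (x : Fˣ) : (Kq e G s z * Kq e G s w) (inl x) (inr 1) = - B3 e G x z w := by
  rw [Matrix.mul_apply, sum_u3]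
  simp only [Kq, mul_zero, add_zero]
  unfold B3
  have q1 : (∑ y : Fˣ, kap G x y z * e (y : F)⁻¹ * -G (y * w)) =
      - ∑ y : Fˣ, kap G x y z * e (y : F)⁻¹ * G (y * w) := by
    rw [← Finset.sum_neg_distrib]
    exact Finset.sum_congr rfl fun y _ => by ring
  rw [q1, add_comm (z : F)⁻¹]; ring

theorem c_xi (x : Fˣ) : (Kq e G s z * Kq e G s w) (inl x) (inr 2) = - s * kap G x w z := by
  rw [Matrix.mul_apply, sum_u3]
  simp only [Kq, mul_zero, add_zero]
  rw [Finset.sum_eq_single w]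
  · rw [if_pos rfl]
    have := e_self e (w : F)⁻¹
    linear_combination (- s * kap G x w z) * this
  · intro y _ hy
    rw [if_neg hy, mul_zero]
  · simp

theorem c_pm : (Kq e G s z * Kq e G s w) (inr 0) (inr 1) =
    ∑ y : Fˣ, G (y * z) * G (y * w) * e (y : F)⁻¹ := by
  rw [Matrix.mul_apply, sum_u3]
  simp only [Kq, mul_zero, add_zero, zero_mul]
  exact Finset.sum_congr rfl fun y _ => by ring

theorem c_pi : (Kq e G s z * Kq e G s w) (inr 0) (inr 2) = s * G (w * z) := by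
  rw [Matrix.mul_apply, sum_u3]
  simp only [Kq, mul_zero, add_zero, zero_mul]
  rw [Finset.sum_eq_single w]
  · rw [if_pos rfl]
    have := e_self e (w : F)⁻¹
    linear_combination (s * G (w * z)) * this
  · intro y _ hy
    rw [if_neg hy, mul_zero]
  · simp

theorem c_mp : (Kq e G s z * Kq e G s w) (inr 1) (inr 0) =
    e (z : F)⁻¹ * e (w : F)⁻¹ * ∑ y : Fˣ, G (y * z) * G (y * w) * e (y : F)⁻¹ := by
  rw [Matrix.mul_apply, sum_u3]
  simp only [Kq, mul_zero, add_zero, zero_mul]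
  rw [Finset.mul_sum]
  refine Finset.sum_congr rfl fun y _ => ?_
  rw [AddChar.map_add_eq_mul]; ring

theorem c_mi : (Kq e G s z * Kq e G s w) (inr 1) (inr 2) =
    - s * (e (z : F)⁻¹ * e (w : F)⁻¹) * G (w * z) := by
  rw [Matrix.mul_apply, sum_u3]
  simp only [Kq, mul_zero, add_zero, zero_mul]
  rw [Finset.sum_eq_single w]
  · rw [if_pos rfl]; ring
  · intro y _ hy
    rw [if_neg hy, mul_zero]
  · simp

theorem c_ip : (Kq e G s z * Kq e G s w) (inr 2) (inr 0) =
    s * (e (z : F)⁻¹ * e (w : F)⁻¹) * G (z * w) := by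
  rw [Matrix.mul_apply, sum_u3]
  simp only [Kq, mul_zero, add_zero, zero_mul]
  rw [Finset.sum_eq_single z]
  · rw [if_pos rfl, AddChar.map_add_eq_mul]; ring
  · intro y _ hy
    rw [if_neg hy, zero_mul]
  · simp

theorem c_im : (Kq e G s z * Kq e G s w) (inr 2) (inr 1) = - s * G (z * w) := by
  rw [Matrix.mul_apply, sum_u3]
  simp only [Kq, mul_zero, add_zero, zero_mul]
  rw [Finset.sum_eq_single z]
  · rw [if_pos rfl]; ring
  · intro y _ hy
    rw [if_neg hy, zero_mul]
  · simp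

theorem c_ii : (Kq e G s z * Kq e G s w) (inr 2) (inr 2) =
    if z = w then - s * s * e (z : F)⁻¹ else 0 := by
  rw [Matrix.mul_apply, sum_u3]
  simp only [Kq, mul_zero, add_zero, zero_mul]
  rw [Finset.sum_eq_single z]
  · rw [if_pos rfl]
    by_cases h : z = w
    · rw [if_pos h, if_pos h, h]; ring
    · rw [if_neg h, if_neg h]; ring
  · intro y _ hy
    rw [if_neg hy, zero_mul]
  · simp

variable (ORT : ∀ z w : F, z ≠ 0 → w ≠ 0 →
    ∑ y : Fˣ, G (y * z) * G (y * w) = (if z = w then (Fintype.card F : ℂ) else 0) - 1)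

include ORT in
theorem c_pp : (Kq e G s z * Kq e G s w) (inr 0) (inr 0) =
    if z = w then - (Fintype.card F : ℂ) * e (z : F)⁻¹ else 0 := by
  rw [Matrix.mul_apply, sum_u3]
  simp only [Kq, mul_zero, add_zero, zero_mul]
  have q1 : (∑ y : Fˣ, -G (y * z) * e (y : F)⁻¹ * (e ((w : F)⁻¹ + (y : F)⁻¹) * G (y * w))) =
      - e (w : F)⁻¹ * ∑ y : Fˣ, G (y * z) * G (y * w) := by
    rw [Finset.mul_sum]
    refine Finset.sum_congr rfl fun y _ => ?_
    have hy := e_self e (y : F)⁻¹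
    rw [AddChar.map_add_eq_mul]
    linear_combination (- G (y * z) * G (y * w) * e (w : F)⁻¹) * hy
  rw [q1, ORT _ _ z.ne_zero w.ne_zero]
  simp only [Units.val_inj]
  by_cases h : z = w
  · rw [if_pos h, if_pos h, h]; ring
  · rw [if_neg h, if_neg h]; ring

include ORT in
theorem c_mm : (Kq e G s z * Kq e G s w) (inr 1) (inr 1) =
    if z = w then - (Fintype.card F : ℂ) * e (z : F)⁻¹ else 0 := by
  rw [Matrix.mul_apply, sum_u3]
  simp only [Kq, mul_zero, add_zero, zero_mul]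
  have q1 : (∑ y : Fˣ, G (y * z) * e (z : F)⁻¹ * -G (y * w)) =
      - e (z : F)⁻¹ * ∑ y : Fˣ, G (y * z) * G (y * w) := by
    rw [Finset.mul_sum]
    exact Finset.sum_congr rfl fun y _ => by ring
  rw [q1, ORT _ _ z.ne_zero w.ne_zero]
  simp only [Units.val_inj]
  by_cases h : z = w
  · rw [if_pos h, if_pos h, h]; ring
  · rw [if_neg h, if_neg h]; ring

end comm

theorem Kq_comm (e : AddChar F ℂ) (G : F → ℂ) (hne : e ≠ 1) (h1 : e 1 = -1)
    (hsq : ∀ x, e (x ^ 2) = e x) (hG : GData e G) (s : ℂ) (hs : s * s = Fintype.card F)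
    (hsr : (starRingEnd ℂ) s = s)
    (ORT : ∀ z w : F, z ≠ 0 → w ≠ 0 →
      ∑ y : Fˣ, G (y * z) * G (y * w) = (if z = w then (Fintype.card F : ℂ) else 0) - 1)
    (z w : Fˣ) (hz : (z : F) ≠ 1) (hw : (w : F) ≠ 1) :
    Kq e G s z * Kq e G s w = Kq e G s w * Kq e G s z := by
  -- first the rows of units
  have hrow : ∀ (x : Fˣ) (j : Fˣ ⊕ Fin 3), (Kq e G s z * Kq e G s w) (inl x) j =
      (Kq e G s w * Kq e G s z) (inl x) j := by
    intro x j
    rcases j with t | j
    · rw [c_xt e G s hs, c_xt e G s hs, t_K4 F e G hne h1 hsq hG x z t w x.ne_zero t.ne_zero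
        z.ne_zero hz w.ne_zero hw]
    · have k3 := t_K3 F e G hne h1 hsq hG x z w x.ne_zero z.ne_zero hz w.ne_zero hw
      fin_cases j
      · show (Kq e G s z * Kq e G s w) (inl x) (inr 0) = (Kq e G s w * Kq e G s z) (inl x) (inr 0)
        rw [c_xp e G h1 hsq, c_xp e G h1 hsq, k3]; ring
      · show (Kq e G s z * Kq e G s w) (inl x) (inr 1) = (Kq e G s w * Kq e G s z) (inl x) (inr 1)
        rw [c_xm, c_xm, k3]
      · show (Kq e G s z * Kq e G s w) (inl x) (inr 2) = (Kq e G s w * Kq e G s z) (inl x) (inr 2)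
        rw [c_xi, c_xi, kap_swap23]
  -- adjoints
  have hH : ∀ z w : Fˣ, (Kq e G s z * Kq e G s w)ᴴ =
      (e (w : F)⁻¹ * e (z : F)⁻¹) • (Kq e G s w * Kq e G s z) := by
    intro z w
    rw [Matrix.conjTranspose_mul, Kq_conjTranspose e G s hsr h1 hsq hG.g5,
      Kq_conjTranspose e G s hsr h1 hsq hG.g5, Matrix.smul_mul, Matrix.mul_smul, smul_smul]
    congr 1; ring
  have hne0 : e (w : F)⁻¹ * e (z : F)⁻¹ ≠ 0 := by
    intro h
    have h2 := e_self e (w : F)⁻¹
    have h3 := e_self e (z : F)⁻¹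
    have h4 : (e (w : F)⁻¹ * e (z : F)⁻¹) * (e (w : F)⁻¹ * e (z : F)⁻¹) = 1 := by
      linear_combination (e (z : F)⁻¹ * e (z : F)⁻¹) * h2 + h3
    rw [h] at h4; simp at h4
  have hcol : ∀ (j : Fˣ ⊕ Fin 3) (x : Fˣ), (Kq e G s z * Kq e G s w) j (inl x) =
      (Kq e G s w * Kq e G s z) j (inl x) := by
    intro j x
    have k1 : (Kq e G s z * Kq e G s w)ᴴ (inl x) j = (starRingEnd ℂ)
      ((Kq e G s z * Kq e G s w) j (inl x)) := rfl
    have k2 : (Kq e G s w * Kq e G s z)ᴴ (inl x) j = (starRingEnd ℂ)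
      ((Kq e G s w * Kq e G s z) j (inl x)) := rfl
    rw [hH] at k1 k2
    rw [Matrix.smul_apply, smul_eq_mul] at k1 k2
    have k3 : (starRingEnd ℂ) ((Kq e G s z * Kq e G s w) j (inl x)) =
        (starRingEnd ℂ) ((Kq e G s w * Kq e G s z) j (inl x)) := by
      rw [← k1, ← k2, hrow, mul_comm (e (w : F)⁻¹)]
    exact (starRingEnd ℂ).injective k3
  ext i j
  rcases i with x | i
  · exact hrow x j
  · rcases j with t | j
    · exact hcol _ t
    · have hmul : (z : F) * w = w * z := mul_comm _ _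
      fin_cases i
      · fin_cases j
        · show (Kq e G s z * Kq e G s w) (inr 0) (inr 0) = (Kq e G s w * Kq e G s z) (inr 0) (inr 0)
          rw [c_pp e G s z w ORT, c_pp e G s w z ORT]
          by_cases h : z = w
          · rw [h]
          · rw [if_neg h, if_neg (Ne.symm h)]
        · show (Kq e G s z * Kq e G s w) (inr 0) (inr 1) = (Kq e G s w * Kq e G s z) (inr 0) (inr 1)
          rw [c_pm, c_pm]
          exact Finset.sum_congr rfl fun y _ => by ring
        · show (Kq e G s z * Kq e G s w) (inr 0) (inr 2) = (Kq e G s w * Kq e G s z) (inr 0) (inr 2)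
          rw [c_pi, c_pi, hmul]
      · fin_cases j
        · show (Kq e G s z * Kq e G s w) (inr 1) (inr 0) = (Kq e G s w * Kq e G s z) (inr 1) (inr 0)
          rw [c_mp, c_mp, mul_comm (e (z : F)⁻¹)]
          congr 1
          exact Finset.sum_congr rfl fun y _ => by ring
        · show (Kq e G s z * Kq e G s w) (inr 1) (inr 1) = (Kq e G s w * Kq e G s z) (inr 1) (inr 1)
          rw [c_mm e G s z w ORT, c_mm e G s w z ORT]
          by_cases h : z = w
          · rw [h]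
          · rw [if_neg h, if_neg (Ne.symm h)]
        · show (Kq e G s z * Kq e G s w) (inr 1) (inr 2) = (Kq e G s w * Kq e G s z) (inr 1) (inr 2)
          rw [c_mi, c_mi, hmul]; ring
      · fin_cases j
        · show (Kq e G s z * Kq e G s w) (inr 2) (inr 0) = (Kq e G s w * Kq e G s z) (inr 2) (inr 0)
          rw [c_ip, c_ip, hmul]; ring
        · show (Kq e G s z * Kq e G s w) (inr 2) (inr 1) = (Kq e G s w * Kq e G s z) (inr 2) (inr 1)
          rw [c_im, c_im, hmul]
        · show (Kq e G s z * Kq e G s w) (inr 2) (inr 2) = (Kq e G s w * Kq e G s z) (inr 2) (inr 2)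
          rw [c_ii, c_ii]
          by_cases h : z = w
          · rw [h]
          · rw [if_neg h, if_neg (Ne.symm h)]

end Pool.Agent.V7H85.BS
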