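import Pool.Agent.R478.BES.Final
import Pool.Agent.Results.MP_2c585b_nt.GoldInverseSum

/-! Specification of the pieces for Q2 of MP_2c585b_nt. -/

set_option autoImplicit false

namespace Pool.Agent.V7H85.BS

open Finset Matrix
open Pool.Agent.R478.BES
open Pool.Agent.Results.MP_2c585b_nt.GoldInverseSum (chi)

/-- `G a = #{r : r^3 + r = a} - 1` -/
noncomputable def Gf (F : Type) [Field F] [Fintype F] [DecidableEq F] (a : F) : ℂ :=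
  ((univ.filter fun r : F => r ^ 3 + r = a).card : ℂ) - 1

/-- the number of `g` in `F` with `(g, g^(2^k))` on the conic of `a`. -/
def Nk (F : Type) [Field F] [Fintype F] [DecidableEq F] (k : ℕ) (a : F) : ℕ :=
  (univ.filter fun g : F => g ^ 2 + (g ^ 2 ^ k) ^ 2 + a * (g * g ^ 2 ^ k) + a ^ 2 = 0).card

/-- the properties of `G` which are used. -/
structure GData {F : Type} [Field F] [Fintype F] [DecidableEq F] (e : AddChar F ℂ)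
    (G : F → ℂ) : Prop where
  g0 : G 0 = 1
  g1 : ∑ c, G c = 0
  g2 : ∀ c, c ≠ 0 → G c * e c⁻¹ = - G c
  g3 : ∀ A B, G A * G B = (∑ c, if c ^ 2 + A * B * c + (A + B) ^ 2 = 0 then G c else 0) -
    (if A = B ∧ A ≠ 0 then e A⁻¹ else 0)
  g4 : ∀ c, G (c ^ 2) = G c
  g5 : ∀ c, (starRingEnd ℂ) (G c) = G c

/-- piece GD -/
def S_GD : Prop := ∀ (F : Type) [Field F] [Fintype F] [DecidableEq F] [Algebra (ZMod 2) F] (n : ℕ),
  Odd n → Fintype.card F = 2 ^ n → GData (chi F) (Gf F)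

/-- piece CNT -/
def S_CNT : Prop := ∀ (F : Type) [Field F] [Fintype F] [DecidableEq F] [Algebra (ZMod 2) F]
  (n k : ℕ), Odd n → Fintype.card F = 2 ^ n → 1 ≤ k → Nat.Coprime k n → ∀ a : F, a ≠ 0 →
    (Nk F k a : ℂ) = 2 + Gf F a

/-- piece FOU -/
def S_FOU : Prop := ∀ (F : Type) [Field F] [Fintype F] [DecidableEq F] [Algebra (ZMod 2) F]
  (n k : ℕ), Odd n → Fintype.card F = 2 ^ n → 1 ≤ k → Nat.Coprime k n →
    ∑ v : Fˣ, chi F (((v : F) ^ 2 ^ k + 1) * (v : F) ^ 2 ^ k / ((v : F) ^ 2 ^ k + v) ^ (2 ^ k + 1)) =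
      2 + ∑ x : Fˣ, chi F (x : F)⁻¹ * (Nk F k (x * (x : F) ^ 2 ^ k) : ℂ)

/-- piece ONE (the known case `k = 1`) -/
def S_ONE : Prop := ∀ (F : Type) [Field F] [Fintype F] [DecidableEq F] [Algebra (ZMod 2) F]
  (n : ℕ), Odd n → Fintype.card F = 2 ^ n →
    ∑ v : Fˣ, chi F (((v : F) ^ 2 ^ 1 + 1) * (v : F) ^ 2 ^ 1 / ((v : F) ^ 2 ^ 1 + v) ^ (2 ^ 1 + 1)) =
      ∑ x : Fˣ, chi F ((x : F) + (x : F)⁻¹)

/-- the kernel of `K z`. -/
noncomputable def kap {F : Type} [Field F] [Fintype F] [DecidableEq F] (G : F → ℂ) (x y z : F) :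
    ℂ := - ∑ d : F, if d ^ 2 + d = 1 + x⁻¹ + y⁻¹ + z⁻¹ then G (x * y * z * d ^ 2) else 0

/-- three point function. -/
noncomputable def B3 {F : Type} [Field F] [Fintype F] [DecidableEq F] (e : AddChar F ℂ)
    (G : F → ℂ) (x z w : F) : ℂ :=
  ∑ y : Fˣ, kap G x y z * e (y : F)⁻¹ * G (y * w) + e (x⁻¹ + z⁻¹) * G (x * z)

/-- four point function. -/
noncomputable def B4 {F : Type} [Field F] [Fintype F] [DecidableEq F] (e : AddChar F ℂ)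
    (G : F → ℂ) (x z t w : F) : ℂ :=
  ∑ y : Fˣ, kap G x y z * e (y : F)⁻¹ * kap G y t w
    - G (x * z) * G (t * w) * (e (x⁻¹ + z⁻¹) + e (t⁻¹ + w⁻¹))
    - if x = z ∧ t = w then (Fintype.card F : ℂ) * e (z⁻¹ + t⁻¹) else 0

/-- piece K3 -/
def S_K3 : Prop := ∀ (F : Type) [Field F] [Fintype F] [DecidableEq F] [CharP F 2]
  (e : AddChar F ℂ) (G : F → ℂ), e ≠ 1 → e 1 = -1 → (∀ x, e (x ^ 2) = e x) → GData e G →
  ∀ x z w : F, x ≠ 0 → z ≠ 0 → z ≠ 1 → w ≠ 0 → w ≠ 1 → B3 e G x z w = B3 e G x w z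

/-- piece K4 -/
def S_K4 : Prop := ∀ (F : Type) [Field F] [Fintype F] [DecidableEq F] [CharP F 2]
  (e : AddChar F ℂ) (G : F → ℂ), e ≠ 1 → e 1 = -1 → (∀ x, e (x ^ 2) = e x) → GData e G →
  ∀ x z t w : F, x ≠ 0 → t ≠ 0 → z ≠ 0 → z ≠ 1 → w ≠ 0 → w ≠ 1 →
    B4 e G x z t w = B4 e G x w t z

/-- the orthogonality of `G` -/
def S_ORT : Prop := ∀ (F : Type) [Field F] [Fintype F] [DecidableEq F] [CharP F 2]
  (e : AddChar F ℂ) (G : F → ℂ), e ≠ 1 → e 1 = -1 → (∀ x, e (x ^ 2) = e x) → GData e G →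
  ∀ z w : F, z ≠ 0 → w ≠ 0 →
    ∑ y : Fˣ, G (y * z) * G (y * w) = (if z = w then (Fintype.card F : ℂ) else 0) - 1

/-- piece TR: the trace theorem -/
def S_TR : Prop := ∀ {ι J : Type} [Fintype ι] [DecidableEq ι] [Fintype J]
    (K : J → Matrix ι ι ℂ) (c : J → ℂ) (_ : ∀ j, c j ≠ 0) (_ : ∀ j, (c j • K j).IsHermitian)
    (_ : ∀ i j, K i * K j = K j * K i) (v u : ι → ℂ) (f : J → ι) (a : J → ℂ)
    (_ : Function.Injective f) (_ : ∀ z, a z ≠ 0) (_ : ∀ z, K z *ᵥ v = a z • Pi.single (f z) 1)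
    (τ τ' : Equiv.Perm ι) (π π' : J → J)
    (_ : ∀ z, τ (f z) = f (π z)) (_ : ∀ z, τ' (f z) = f (π' z))
    (_ : ∀ i, (∀ z, i ≠ f z) → τ i = i) (_ : ∀ i, (∀ z, i ≠ f z) → τ' i = i)
    (_ : ∀ j, Pm τ * K j = K (π j) * Pm τ) (_ : ∀ j, Pm τ' * K j = K (π' j) * Pm τ')
    (_ : Pm τ *ᵥ v = v) (_ : Pm τ' *ᵥ v = v)
    (_ : ∀ g : J → ℂ, g ∘ π = g ↔ g ∘ π' = g),
    ∑ z, (K (π z) *ᵥ u) (f z) / a (π z) = ∑ z, (K (π' z) *ᵥ u) (f z) / a (π' z)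

end Pool.Agent.V7H85.BS
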